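import Pool.Agent.Lib.MP_d48993_lc.Interfaces

/-!
# A universal family of closed classes with the recursion theorem, and upward closures (helper84)
-/

set_option autoImplicit false

namespace Pool.Agent.Lib.MP_d48993_lc.H84

open MP_8c048d_lc (pre join RecF Sig Pih Del Clo Cop)
open Nat.Partrec (Code)

/-- the universal family of closed classes -/
def KK (e i : ℕ) : Set (ℕ → ℕ) :=
  {F | ∀ p : ℕ × ℕ, Code.evaln p.2 (Denumerable.ofNat Code e) (Encodable.encode (i, pre F p.1)) =
    none}

theorem optNone_comp : ComputablePred (fun o : Option ℕ => o = none) := by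
  rw [ComputablePred.computable_iff]
  refine ⟨fun o => !o.isSome, Primrec.not.to_comp.comp Primrec.option_isSome.to_comp, ?_⟩
  funext o
  cases o <;> simp

theorem KK_clo : Clo (fun (p : ℕ × ℕ) F => F ∈ KK p.1 p.2) := by
  have e1 : RecF (fun (a : (ℕ × ℕ) × (ℕ × ℕ)) F => pre F a.2.1) :=
    RecF.pre.comp₁ (Computable.fst.comp Computable.snd)
  have e2 : Computable (fun x : ((ℕ × ℕ) × (ℕ × ℕ)) × List ℕ =>
      Code.evaln x.1.2.2 (Denumerable.ofNat Code x.1.1.1) (Encodable.encode (x.1.1.2, x.2))) := by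
    have h : Primrec (fun x : ((ℕ × ℕ) × (ℕ × ℕ)) × List ℕ =>
        (((x.1.2.2, Denumerable.ofNat Code x.1.1.1), Encodable.encode (x.1.1.2, x.2)) :
          (ℕ × Code) × ℕ)) := by
      have a1 : Primrec (fun x : ((ℕ × ℕ) × (ℕ × ℕ)) × List ℕ => x.1.2.2) :=
        Primrec.snd.comp (Primrec.snd.comp Primrec.fst)
      have a2 : Primrec (fun x : ((ℕ × ℕ) × (ℕ × ℕ)) × List ℕ => x.1.1.1) :=
        Primrec.fst.comp (Primrec.fst.comp Primrec.fst)
      have a3 : Primrec (fun x : ((ℕ × ℕ) × (ℕ × ℕ)) × List ℕ => x.1.1.2) :=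
        Primrec.snd.comp (Primrec.fst.comp Primrec.fst)
      exact (a1.pair ((Primrec.ofNat Code).comp a2)).pair
        (Primrec.encode.comp (a3.pair Primrec.snd))
    exact (Code.primrec_evaln.comp h).to_comp
  have e3 : Cop (fun (a : (ℕ × ℕ) × (ℕ × ℕ)) F =>
      Code.evaln a.2.2 (Denumerable.ofNat Code a.1.1) (Encodable.encode (a.1.2, pre F a.2.1)) =
        none) :=
    Cop.of_recF (φ := fun (a : (ℕ × ℕ) × (ℕ × ℕ)) F =>
      Code.evaln a.2.2 (Denumerable.ofNat Code a.1.1) (Encodable.encode (a.1.2, pre F a.2.1)))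
      (RecF.comp e2 ((RecF.of_computable Computable.id).pair e1)) optNone_comp
  exact Clo.all (P := fun (a : ℕ × ℕ) (p : ℕ × ℕ) F =>
    Code.evaln p.2 (Denumerable.ofNat Code a.1) (Encodable.encode (a.2, pre F p.1)) = none)
    (Clo.of_cop e3)

/-- a computable rejection of finite sequences for closed relations -/
theorem clo_reject {α : Type} [Primcodable α] {P : α → (ℕ → ℕ) → Prop} (hP : Clo P) :
    ∃ b : α × List ℕ → Bool, Computable b ∧ ∀ a F, P a F ↔ ∀ k, b (a, pre F k) = false := by
  obtain ⟨d, hd, hP⟩ := hP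
  obtain ⟨q, hq, h1, h2⟩ := hd.mono
  have hbi : ∀ o : Option Bool, (!(o.getD true)) = false ↔ o ≠ some false := by
    intro o
    rcases o with _ | _ | _ <;> simp
  refine ⟨fun x => !((q ((x.1, x.2.length.unpair.1), x.2.take x.2.length.unpair.2)).getD true),
    ?_, ?_⟩
  · have hu : Computable (fun x : α × List ℕ => x.2.length.unpair) :=
      Computable.unpair.comp (Computable.list_length.comp Computable.snd)
    have ha : Computable (fun x : α × List ℕ =>
        (((x.1, x.2.length.unpair.1), x.2.take x.2.length.unpair.2) : (α × ℕ) × List ℕ)) :=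
      (Computable.fst.pair (Computable.fst.comp hu)).pair
        ((Primrec.list_take (α := ℕ)).to_comp.comp (Computable.snd.comp hu) Computable.snd)
    exact Primrec.not.to_comp.comp (Primrec.option_getD.to_comp.comp (hq.comp ha)
      (Computable.const true))
  · intro a F
    rw [hP]
    constructor
    · intro h k
      rw [hbi]
      intro hc
      simp only [MP_8c048d_lc.pre_take] at hc
      have := h1 _ _ _ _ hc
      rw [h] at this
      simp at this
    · intro h m
      obtain ⟨k0, hk0⟩ := h2 (a, m) F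
      have h3 := h (Nat.pair m k0)
      rw [hbi] at h3
      simp only [MP_8c048d_lc.length_pre, MP_8c048d_lc.pre_take, Nat.unpair_pair] at h3
      rw [min_eq_left (Nat.right_le_pair m k0), hk0 k0 le_rfl] at h3
      cases hd' : d (a, m) F with
      | true => rfl
      | false => rw [hd'] at h3; exact absurd rfl h3

/-- the recursion theorem for the universal family -/
theorem KK_rec {P : ℕ × ℕ → (ℕ → ℕ) → Prop} (hP : Clo P) :
    ∃ e, ∀ i F, F ∈ KK e i ↔ P (e, i) F := by
  obtain ⟨b, hb, hbP⟩ := clo_reject hP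
  let f : Code → ℕ →. ℕ := fun c n =>
    (Part.ofOption (Encodable.decode n : Option (ℕ × List ℕ))).bind fun x =>
      bif b ((Encodable.encode c, x.1), x.2) then (Part.some 0 : Part ℕ) else Part.none
  have hf : Partrec₂ f := by
    have h1 : Computable (fun p : Code × ℕ => (Encodable.decode p.2 : Option (ℕ × List ℕ))) :=
      Computable.decode.comp Computable.snd
    have h2 : Computable (fun y : (Code × ℕ) × (ℕ × List ℕ) =>
        b ((Encodable.encode y.1.1, y.2.1), y.2.2)) := by
      refine hb.comp (Computable.pair (Computable.pair ?_ ?_) ?_)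
      · exact Computable.encode.comp (Computable.fst.comp Computable.fst)
      · exact Computable.fst.comp Computable.snd
      · exact Computable.snd.comp Computable.snd
    have h3 : Partrec (fun y : (Code × ℕ) × (ℕ × List ℕ) =>
        bif b ((Encodable.encode y.1.1, y.2.1), y.2.2) then (Part.some 0 : Part ℕ)
          else Part.none) :=
      Partrec.cond h2 (Computable.const 0).partrec Partrec.none
    exact Partrec.bind (Computable.ofOption h1) h3.to₂
  obtain ⟨c, hc⟩ := Code.fixed_point₂ hf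
  have hdom : ∀ (i : ℕ) (τ : List ℕ), (∃ x, x ∈ c.eval (Encodable.encode (i, τ))) ↔
      b ((Encodable.encode c, i), τ) = true := by
    intro i τ
    rw [hc]
    simp only [f, Encodable.encodek, Part.coe_some, Part.bind_some]
    cases b ((Encodable.encode c, i), τ) <;> simp
  refine ⟨Encodable.encode c, fun i F => ?_⟩
  rw [hbP]
  constructor
  · intro h k
    by_contra hne
    simp only [Bool.not_eq_false] at hne
    obtain ⟨x, hx⟩ := (hdom i _).2 hne
    obtain ⟨n, hn⟩ := Code.evaln_complete.1 hx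
    have h4 : Code.evaln n (Denumerable.ofNat Code (Encodable.encode c))
      (Encodable.encode (i, pre F k)) = none := h (k, n)
    rw [Denumerable.ofNat_encode] at h4
    rw [h4] at hn
    simp at hn
  · intro h p
    show Code.evaln p.2 (Denumerable.ofNat Code (Encodable.encode c))
      (Encodable.encode (i, pre F p.1)) = none
    rw [Denumerable.ofNat_encode]
    by_contra hne
    obtain ⟨x, hx⟩ := Option.ne_none_iff_exists'.1 hne
    have h3 := (hdom i _).1 ⟨x, Code.evaln_sound hx⟩
    rw [h p.1] at h3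
    exact absurd h3 (by decide)

/-- the limit of a total monotone computation -/
theorem compBy_of_total {φ : List ℕ → List ℕ} (hφ : ∀ σ τ, σ <+: τ → φ σ <+: φ τ) {W : ℕ → ℕ}
    (h : ∀ n, ∃ j, n ≤ (φ (pre W j)).length) : ∃ f, CompBy φ W f := by
  choose j hj using h
  have hpm : ∀ m n, m ≤ n → pre W m <+: pre W n := by
    intro m n hmn
    rw [← min_eq_left hmn, ← MP_8c048d_lc.pre_take]
    exact List.take_prefix _ _
  refine ⟨fun i => (φ (pre W (j (i + 1)))).getD i 0, fun k => ?_, fun n => ⟨j n, hj n⟩⟩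
  refine List.ext_getElem? fun i => ?_
  rw [MP_8c048d_lc.pre_getElem?]
  split_ifs with hi
  · have h4 : i < (φ (pre W (j (i + 1)))).length := hj (i + 1)
    rw [List.getD_eq_getElem?_getD, List.getElem?_eq_getElem hi, List.getElem?_eq_getElem h4]
    simp only [Option.getD_some, Option.some.injEq]
    rcases le_total k (j (i + 1)) with h | h
    · exact (hφ _ _ (hpm _ _ h)).getElem hi
    · exact ((hφ _ _ (hpm _ _ h)).getElem h4).symm
  · exact List.getElem?_eq_none (by omega)

/-- the upward closure of a uniform sequence of `Π⁰₂` classes is `Δ¹₁` -/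
theorem up_del (henum : EnumStatement) {α : Type} [Primcodable α]
    {d : α × (ℕ × ℕ) → (ℕ → ℕ) → Bool} (hd : RecF d) :
    Del (fun (a : α) W => W ∈ Up {F | ∀ n, ∃ m, d (a, (n, m)) F = true}) := by
  obtain ⟨Φ, hΦ⟩ := henum
  obtain ⟨q, hq, h1, h2⟩ := hd.mono
  have hleN : ComputablePred (fun x : ℕ × ℕ => x.1 ≤ x.2) :=
    PrimrecPred.computablePred (PrimrecRel.comp Primrec.nat_le Primrec.fst Primrec.snd)
  have hst : ComputablePred (fun o : Option Bool => o = some true) :=
    PrimrecPred.computablePred (PrimrecRel.comp Primrec.eq Primrec.id (Primrec.const (some true)))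
  -- totality
  have A1 : Del (fun (p : (α × ℕ) × ℕ) W => ∃ j, p.2 ≤ (Φ p.1.2 (pre W j)).length) := by
    have e1 : RecF (fun (x : ((α × ℕ) × ℕ) × ℕ) W => pre W x.2) := RecF.pre.comp₁ Computable.snd
    have e2 : RecF (fun (x : ((α × ℕ) × ℕ) × ℕ) W => (x.1.2, (Φ x.1.1.2 (pre W x.2)).length)) := by
      have c1 : Computable (fun y : (((α × ℕ) × ℕ) × ℕ) × List ℕ =>
          (y.1.1.2, (Φ y.1.1.1.2 y.2).length)) :=
        Computable.pair (Computable.snd.comp (Computable.fst.comp Computable.fst))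
          (Computable.list_length.comp (hΦ.comp.comp (Computable.snd.comp (Computable.fst.comp
            (Computable.fst.comp Computable.fst))) Computable.snd))
      exact RecF.comp c1 ((RecF.of_computable Computable.id).pair e1)
    exact Del.ex (P := fun (p : (α × ℕ) × ℕ) (j : ℕ) W => p.2 ≤ (Φ p.1.2 (pre W j)).length)
      (Cop.del (Cop.of_recF (p := fun x : ℕ × ℕ => x.1 ≤ x.2) e2 hleN))
  have A2 : Del (fun (p : α × ℕ) W => ∀ n, ∃ j, n ≤ (Φ p.2 (pre W j)).length) :=
    Del.all (P := fun (p : α × ℕ) (n : ℕ) W => ∃ j, n ≤ (Φ p.2 (pre W j)).length) A1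
  -- membership
  have B1 : Del (fun (p : (α × ℕ) × ℕ) W => ∃ x : ℕ × ℕ,
      q ((p.1.1, (p.2, x.1)), Φ p.1.2 (pre W x.2)) = some true) := by
    have e1 : RecF (fun (x : ((α × ℕ) × ℕ) × (ℕ × ℕ)) W => pre W x.2.2) :=
      RecF.pre.comp₁ (Computable.snd.comp Computable.snd)
    have e2 : RecF (fun (x : ((α × ℕ) × ℕ) × (ℕ × ℕ)) W =>
        q ((x.1.1.1, (x.1.2, x.2.1)), Φ x.1.1.2 (pre W x.2.2))) := by
      have c1 : Computable (fun y : (((α × ℕ) × ℕ) × (ℕ × ℕ)) × List ℕ =>
          q ((y.1.1.1.1, (y.1.1.2, y.1.2.1)), Φ y.1.1.1.2 y.2)) := by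
        refine hq.comp (Computable.pair (Computable.pair ?_ (Computable.pair ?_ ?_)) ?_)
        · exact Computable.fst.comp (Computable.fst.comp (Computable.fst.comp Computable.fst))
        · exact Computable.snd.comp (Computable.fst.comp Computable.fst)
        · exact Computable.fst.comp (Computable.snd.comp Computable.fst)
        · exact hΦ.comp.comp (Computable.snd.comp (Computable.fst.comp
            (Computable.fst.comp Computable.fst))) Computable.snd
      exact RecF.comp c1 ((RecF.of_computable Computable.id).pair e1)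
    exact Del.ex (P := fun (p : (α × ℕ) × ℕ) (x : ℕ × ℕ) W =>
      q ((p.1.1, (p.2, x.1)), Φ p.1.2 (pre W x.2)) = some true)
      (Cop.del (Cop.of_recF (p := fun o : Option Bool => o = some true) e2 hst))
  have B2 : Del (fun (p : α × ℕ) W => ∀ n, ∃ x : ℕ × ℕ,
      q ((p.1, (n, x.1)), Φ p.2 (pre W x.2)) = some true) :=
    Del.all (P := fun (p : α × ℕ) (n : ℕ) W => ∃ x : ℕ × ℕ,
      q ((p.1, (n, x.1)), Φ p.2 (pre W x.2)) = some true) B1
  have C1 := Del.ex (P := fun (a : α) (k : ℕ) W => (∀ n, ∃ j, n ≤ (Φ k (pre W j)).length) ∧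
    ∀ n, ∃ x : ℕ × ℕ, q ((a, (n, x.1)), Φ k (pre W x.2)) = some true) (A2.and B2)
  refine C1.congr fun a W => ?_
  constructor
  · rintro ⟨k, hk1, hk2⟩
    obtain ⟨f, hf⟩ := compBy_of_total (hΦ.mono k) hk1
    refine ⟨f, fun n => ?_, (hΦ.spec f W).2 ⟨k, hf⟩⟩
    obtain ⟨x, hx⟩ := hk2 n
    rw [hf.1] at hx
    exact ⟨x.1, h1 _ _ _ _ hx⟩
  · rintro ⟨f, hf, hr⟩
    obtain ⟨k, hk⟩ := (hΦ.spec f W).1 hr
    refine ⟨k, hk.2, fun n => ?_⟩
    obtain ⟨m, hm⟩ := hf n
    obtain ⟨k0, hk0⟩ := h2 (a, (n, m)) f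
    obtain ⟨j, hj⟩ := hk.2 k0
    refine ⟨(m, j), ?_⟩
    show q ((a, (n, m)), Φ k (pre W j)) = some true
    rw [hk.1, hk0 _ hj, hm]

end Pool.Agent.Lib.MP_d48993_lc.H84
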