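import Pool.Agent.Lib.MP_d48993_lc.H84.Reals

/-!
# An independent sequence of `Π⁰₂` classes in every interval, continued (helper84)
-/

set_option autoImplicit false

namespace Pool.Agent.Lib.MP_d48993_lc.H84

open MP_8c048d_lc (pre join RecF Sig Pih Del Clo Cop)
open Hide (ev od)

/-- two entries in front of a function -/
def cons2 (e i : ℕ) (X : ℕ → ℕ) : ℕ → ℕ := fun n => if n = 0 then e else if n = 1 then i else X (n - 2)

/-- the function without its first two entries -/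
def tl2 (Y : ℕ → ℕ) : ℕ → ℕ := fun n => Y (n + 2)

theorem tl2_cons2 (e i : ℕ) (X : ℕ → ℕ) : tl2 (cons2 e i X) = X := by
  funext n
  simp [tl2, cons2]

theorem cons2_zero (e i : ℕ) (X : ℕ → ℕ) : cons2 e i X 0 = e := rfl

theorem cons2_one (e i : ℕ) (X : ℕ → ℕ) : cons2 e i X 1 = i := rfl

theorem tl2_recF {α : Type} [Primcodable α] : RecF (fun (p : α × ℕ) F => tl2 F p.2) :=
  RecF.at ((Primrec.nat_add.comp Primrec.snd (Primrec.const 2)).to_comp)

theorem red_tl2 (h1 : Red1Statement) (Y : ℕ → ℕ) : Red (tl2 Y) Y :=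
  h1 (fun n F => tl2 F n) (RecF.at ((Primrec.nat_add.comp Primrec.id (Primrec.const 2)).to_comp)) Y

theorem up_trans {P : Set (ℕ → ℕ)} {g W : ℕ → ℕ} (hg : g ∈ Up P) (h : Red g W) : W ∈ Up P := by
  obtain ⟨f, hf, hfg⟩ := hg
  exact ⟨f, hf, hfg.trans h⟩

theorem up_self {P : Set (ℕ → ℕ)} {g : ℕ → ℕ} (hg : g ∈ P) : g ∈ Up P := ⟨g, hg, Red.rfl⟩

/-- `Π⁰₂` classes of a uniform family -/
def P2 {α : Type} (d : α × (ℕ × ℕ) → (ℕ → ℕ) → Bool) (a : α) : Set (ℕ → ℕ) :=
  {F | ∀ n, ∃ m, d (a, (n, m)) F = true}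

/-- In every interval there is an independent sequence of `Π⁰₂` classes. -/
theorem exists_seq (henum : EnumStatement) (hresS : ResStatement) (hjoin : JoinStatement)
    (hred : Red1Statement) (A B : Set (ℕ → ℕ)) (hA : ClosedC A) (hB : ClosedC B)
    (hBA : Up B ⊆ Up A) (hex : ∃ X ∈ A, X ∉ Up B) :
    ∃ d : ℕ × (ℕ × ℕ) → (ℕ → ℕ) → Bool, RecF d ∧ ∃ W : ℕ → ℕ → ℕ,
      (∀ i, P2 d i ⊆ Up A) ∧ ∀ i, W i ∉ Up B ∧ W i ∈ Up (P2 d i) ∧
        ∀ j, j ≠ i → W i ∉ Up (P2 d j) := by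
  classical
  obtain ⟨X, hX, hXB⟩ := hex
  -- the relation that is hidden
  let Θ : (ℕ → ℕ) → Prop := fun Y => tl2 Y ∈ A ∧ ∃ F, F ∈ KK (Y 0) (Y 1)
  have hΘ : Sig (fun (_ : Unit) Y => Θ Y) := by
    have e1 : Sig (fun (_ : Unit) Y => tl2 Y ∈ A) :=
      (Clo.del hA).1.subst (P := fun (_ : Unit) F => F ∈ A) (ψ := fun (a : Unit) _ => a)
        (RecF.of_computable Computable.id) (Ψ := fun (_ : Unit) F => tl2 F) tl2_recF
    have e2 : Sig (fun (_ : Unit) E => od E ∈ KK (ev E 0) (ev E 1)) := by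
      refine (Clo.del KK_clo).1.subst (P := fun (p : ℕ × ℕ) F => F ∈ KK p.1 p.2)
        (ψ := fun (_ : Unit) E => (ev E 0, ev E 1)) ?_ (Ψ := fun (_ : Unit) E => od E)
        Hide.recF_od
      exact (RecF.at (f := fun _ : Unit => 0) (Computable.const 0)).pair
        (RecF.at (f := fun _ : Unit => 2) (Computable.const 2))
    have e3 := Sig.exF (P := fun (_ : Unit) E => od E ∈ KK (ev E 0) (ev E 1)) e2
    refine (e1.and (e3.congr fun a F => ?_))
    simp only [Hide.od_join, Hide.ev_join]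
  obtain ⟨D, hD, hD1, hD2⟩ := hide2 henum hresS hjoin B Θ hB hΘ
  -- the slices
  let dd : (ℕ × ℕ) × (ℕ × ℕ) → (ℕ → ℕ) → Bool := fun x F =>
    D x.2 F && (decide (F 0 = x.1.1) && decide (F 2 = x.1.2))
  have hand : Computable (fun x : Bool × Bool => x.1 && x.2) :=
    (Primrec.and.to_comp).comp Computable.fst Computable.snd
  have heq : Computable (fun x : ℕ × ℕ => decide (x.1 = x.2)) :=
    (Primrec.eq (α := ℕ)).decide.to_comp
  have hdd : RecF dd := by
    have e1 : RecF (fun (x : (ℕ × ℕ) × (ℕ × ℕ)) F => D x.2 F) := hD.comp₁ Computable.snd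
    have e2 : RecF (fun (x : (ℕ × ℕ) × (ℕ × ℕ)) F => decide (F 0 = x.1.1)) :=
      RecF.comp (g := fun x : ℕ × ℕ => decide (x.1 = x.2)) heq
        ((RecF.at (f := fun _ : (ℕ × ℕ) × (ℕ × ℕ) => 0) (Computable.const 0)).pair
          (RecF.of_computable (Computable.fst.comp Computable.fst)))
    have e3 : RecF (fun (x : (ℕ × ℕ) × (ℕ × ℕ)) F => decide (F 2 = x.1.2)) :=
      RecF.comp (g := fun x : ℕ × ℕ => decide (x.1 = x.2)) heq
        ((RecF.at (f := fun _ : (ℕ × ℕ) × (ℕ × ℕ) => 2) (Computable.const 2)).pair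
          (RecF.of_computable (Computable.snd.comp Computable.fst)))
    exact RecF.comp (g := fun x : Bool × Bool => x.1 && x.2) hand
      (e1.pair (RecF.comp (g := fun x : Bool × Bool => x.1 && x.2) hand (e2.pair e3)))
  have hmem : ∀ (p : ℕ × ℕ) (F : ℕ → ℕ), F ∈ P2 dd p ↔
      (∀ n, ∃ m, D (n, m) F = true) ∧ F 0 = p.1 ∧ F 2 = p.2 := by
    intro p F
    constructor
    · intro h
      have h' : ∀ n, ∃ m, D (n, m) F = true ∧ F 0 = p.1 ∧ F 2 = p.2 := by
        intro n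
        obtain ⟨m, hm⟩ := h n
        have hm' : (D (n, m) F && (decide (F 0 = p.1) && decide (F 2 = p.2))) = true := hm
        simp only [Bool.and_eq_true, decide_eq_true_eq] at hm'
        exact ⟨m, hm'⟩
      refine ⟨fun n => ?_, ?_⟩
      · obtain ⟨m, hm, -⟩ := h' n
        exact ⟨m, hm⟩
      · obtain ⟨m, -, hm⟩ := h' 0
        exact hm
    · rintro ⟨h, h0, h2⟩ n
      obtain ⟨m, hm⟩ := h n
      refine ⟨m, ?_⟩
      show (D (n, m) F && (decide (F 0 = p.1) && decide (F 2 = p.2))) = true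
      simp [hm, h0, h2]
  -- members of the slices outside `Up B`
  have hsl : ∀ (p : ℕ × ℕ) (F : ℕ → ℕ), F ∈ P2 dd p → F ∉ Up B →
      tl2 (ev F) ∈ A ∧ ∃ G, G ∈ KK p.1 p.2 := by
    intro p F hF hFB
    obtain ⟨h1, h2, h3⟩ := (hmem p F).1 hF
    obtain ⟨h4, G, h5⟩ := hD2 F h1 hFB
    have e0 : ev F 0 = F 0 := rfl
    have e1 : ev F 1 = F 2 := rfl
    rw [e0, e1, h2, h3] at h5
    exact ⟨h4, G, h5⟩
  -- the relation `R`
  have hBdel : Del (fun (_ : Unit) W => W ∈ Up B) := by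
    obtain ⟨d, hd, hBd⟩ := hB
    have e := up_del henum (d := fun (x : Unit × (ℕ × ℕ)) F => d (x.1, x.2.1) F)
      (hd.comp₁ (Computable.fst.pair (Computable.fst.comp Computable.snd)))
    refine e.congr fun a W => ?_
    have : {F | ∀ (n : ℕ), ∃ _m : ℕ, d (a, n) F = true} = B := by
      ext F
      have h1 : F ∈ B ↔ ∀ m, d ((), m) F = true := hBd () F
      rw [h1]
      constructor
      · intro h n
        obtain ⟨_, h⟩ := h n
        exact h
      · intro h n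
        exact ⟨0, h n⟩
    show W ∈ Up {F | ∀ (n : ℕ), ∃ _m : ℕ, d (a, n) F = true} ↔ _
    rw [this]
  have hVdel : Del (fun (p : ℕ × ℕ) W => W ∈ Up (P2 dd p)) := up_del henum hdd
  let M : ℕ × ℕ → (ℕ → ℕ) → Prop := fun p W =>
    W ∉ Up B ∧ W ∈ Up (P2 dd p) ∧ ∀ j, j ≠ p.2 → W ∉ Up (P2 dd (p.1, j))
  have hM : Sig M := by
    have e1 : Del (fun (_ : ℕ × ℕ) W => W ∈ Up B) :=
      hBdel.comp (f := fun _ : ℕ × ℕ => ()) (Computable.const ())
    have e2 : Del (fun (x : (ℕ × ℕ) × ℕ) W => W ∈ Up (P2 dd (x.1.1, x.2))) :=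
      hVdel.comp (f := fun x : (ℕ × ℕ) × ℕ => (x.1.1, x.2))
        ((Computable.fst.comp Computable.fst).pair Computable.snd)
    have neN : ComputablePred (fun x : (ℕ × ℕ) × ℕ => x.2 ≠ x.1.2) :=
      (PrimrecPred.not (PrimrecRel.comp Primrec.eq Primrec.snd
        (Primrec.snd.comp Primrec.fst))).computablePred
    have e3 : Del (fun (x : (ℕ × ℕ) × ℕ) W => x.2 ≠ x.1.2 → W ∉ Up (P2 dd (x.1.1, x.2))) :=
      Del.imp (MP_8c048d_lc.Del.of_computable neN) e2.not
    have e4 : Del (fun (p : ℕ × ℕ) W => ∀ j, j ≠ p.2 → W ∉ Up (P2 dd (p.1, j))) :=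
      Del.all (P := fun (p : ℕ × ℕ) (j : ℕ) W => j ≠ p.2 → W ∉ Up (P2 dd (p.1, j))) e3
    exact (e1.not.and (hVdel.and e4)).1
  have hR : Sig (fun (p : ℕ × ℕ) (_ : ℕ → ℕ) => ∃ W, M p W) := by
    have e1 : Sig (fun (p : ℕ × ℕ) E => M p (od E)) :=
      hM.subst (ψ := fun (a : ℕ × ℕ) _ => a) (RecF.of_computable Computable.id)
        (Ψ := fun (_ : ℕ × ℕ) E => od E) Hide.recF_od
    refine (Sig.exF e1).congr fun p F => ?_
    simp only [Hide.od_join]
  obtain ⟨T, hT, hT1, hT2, hT3⟩ := sig_tree (R := fun p => ∃ W, M p W) hR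
  obtain ⟨e, he⟩ := KK_rec (pc2_clo hT)
  -- all the relations hold
  have hall : ∀ i, ∃ W, M (e, i) W := by
    by_contra hcon
    push Not at hcon
    obtain ⟨i₁, hi₁⟩ := hcon
    have hwf : ∃ i, ¬ HasP ((fun j => T (e, j)) i) := by
      refine ⟨i₁, fun h => ?_⟩
      obtain ⟨W, hW⟩ := (hT3 (e, i₁)).1 h
      exact hi₁ W hW
    obtain ⟨i, hi1, hi2, hi3⟩ := exists_first (fun j => T (e, j)) (fun j => hT1 _)
      (fun j => hT2 _) hwf
    obtain ⟨G, hG⟩ := (first_iff (T := T) e i).2 hi2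
    have hKi : G ∈ KK e i := (he i G).2 hG
    have hKj : ∀ j, j ≠ i → ∀ G, G ∉ KK e j := by
      intro j hj G hG
      exact hi3 j hj ((first_iff (T := T) e j).1 ⟨G, (he j G).1 hG⟩)
    have hYΘ : Θ (cons2 e i X) := by
      refine ⟨by rw [tl2_cons2]; exact hX, G, ?_⟩
      rw [cons2_zero, cons2_one]
      exact hKi
    have hYB : cons2 e i X ∉ Up B := by
      intro h
      apply hXB
      refine up_trans h ?_
      refine hred (fun n F => cons2 e i F n) ?_ X
      have c0 : Computable (fun n : ℕ => decide (n = 0)) :=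
        (PrimrecRel.comp (Primrec.eq (α := ℕ)) Primrec.id (Primrec.const 0)).decide.to_comp
      have c1 : Computable (fun n : ℕ => decide (n = 1)) :=
        (PrimrecRel.comp (Primrec.eq (α := ℕ)) Primrec.id (Primrec.const 1)).decide.to_comp
      have r := RecF.cond (c := fun (n : ℕ) (_ : ℕ → ℕ) => decide (n = 0))
        (RecF.of_computable c0)
        (φ := fun (_ : ℕ) (_ : ℕ → ℕ) => e) (RecF.of_computable (Computable.const e))
        (RecF.cond (c := fun (n : ℕ) (_ : ℕ → ℕ) => decide (n = 1)) (RecF.of_computable c1)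
          (φ := fun (_ : ℕ) (_ : ℕ → ℕ) => i) (RecF.of_computable (Computable.const i))
          (ψ := fun (n : ℕ) (F : ℕ → ℕ) => F (n - 2))
          (RecF.at (Primrec.nat_sub.comp Primrec.id (Primrec.const 2)).to_comp))
      refine r.congr fun n F => ?_
      unfold cons2
      by_cases h0 : n = 0
      · simp [h0]
      · by_cases h1 : n = 1
        · simp [h1]
        · simp [h0, h1]
    obtain ⟨Z, hZ1, hZ2⟩ := hD1 _ hYΘ hYB
    set F := join (cons2 e i X) Z with hFdef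
    have hFm : F ∈ P2 dd (e, i) := by
      refine (hmem (e, i) F).2 ⟨hZ1, ?_, ?_⟩
      · show join (cons2 e i X) Z (2 * 0) = e
        rw [MP_8c048d_lc.join_even]; rfl
      · show join (cons2 e i X) Z (2 * 1) = i
        rw [MP_8c048d_lc.join_even]; rfl
    have hW : ∃ W, M (e, i) W := by
      refine ⟨F, hZ2, up_self hFm, fun j hj hFj => ?_⟩
      obtain ⟨G', hG', hr⟩ := hFj
      have hG'B : G' ∉ Up B := fun h => hZ2 (up_trans h hr)
      obtain ⟨-, G'', hG''⟩ := hsl _ _ hG' hG'B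
      exact hKj j hj G'' hG''
    exact hi1 ((hT3 (e, i)).2 hW)
  choose W hW using hall
  refine ⟨fun x F => dd ((e, x.1), x.2) F, ?_, W, ?_, ?_⟩
  · exact hdd.comp₁ (f := fun x : ℕ × (ℕ × ℕ) => ((e, x.1), x.2))
      (((Computable.const e).pair Computable.fst).pair Computable.snd)
  · intro i F hF
    by_cases hFB : F ∈ Up B
    · exact hBA hFB
    · obtain ⟨h1, -⟩ := hsl (e, i) F hF hFB
      refine up_trans (up_self h1) ((red_tl2 hred _).trans ?_)
      have h2 := hjoin.1 (ev F) (od F)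
      rwa [Hide.join_ev_od] at h2
  · intro i
    exact hW i

end Pool.Agent.Lib.MP_d48993_lc.H84
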