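import Mathlib

/-!
# Every countable distributive lattice embeds in the lattice of computable sets (helper84)
-/

set_option autoImplicit false

namespace Pool.Agent.Lib.MP_d48993_lc.H84

open Order

variable {L : Type} [DistribLattice L]

/-- lattice homomorphisms to `Bool` -/
def IsHom (p : L → Bool) : Prop :=
  ∀ a b, p (a ⊔ b) = (p a || p b) ∧ p (a ⊓ b) = (p a && p b)

theorem exists_hom {a b : L} (h : ¬ a ≤ b) : ∃ p : L → Bool, IsHom p ∧ p a = true ∧ p b = false := by
  classical
  have hd : Disjoint (PFilter.principal a : Set L) (Ideal.principal b : Set L) := by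
    rw [Set.disjoint_left]
    intro x hx hx'
    have h1 : a ≤ x := PFilter.mem_principal.1 hx
    have h2 : x ≤ b := Ideal.mem_principal.1 hx'
    exact h (h1.trans h2)
  obtain ⟨J, hJ, hIJ, hFJ⟩ := DistribLattice.prime_ideal_of_disjoint_filter_ideal hd
  refine ⟨fun x => decide (x ∉ J), fun x y => ⟨?_, ?_⟩, ?_, ?_⟩
  · by_cases hx : x ∈ J
    · by_cases hy : y ∈ J
      · have : x ⊔ y ∈ J := Ideal.sup_mem hx hy
        simp [hx, hy, this]
      · have : x ⊔ y ∉ J := fun h => hy (J.lower le_sup_right h)
        simp [hx, hy, this]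
    · have : x ⊔ y ∉ J := fun h => hx (J.lower le_sup_left h)
      simp [hx, this]
  · by_cases hx : x ∈ J
    · have : x ⊓ y ∈ J := J.lower inf_le_left hx
      simp [hx, this]
    · by_cases hy : y ∈ J
      · have : x ⊓ y ∈ J := J.lower inf_le_right hy
        simp [hx, hy, this]
      · have : x ⊓ y ∉ J := fun h => (hJ.mem_or_mem h).elim hx hy
        simp [hx, hy, this]
  · have : a ∉ J := fun h => (Set.disjoint_left.1 hFJ) (PFilter.mem_principal.2 le_rfl) h
    simp [this]
  · have : b ∈ J := hIJ (Ideal.mem_principal.2 le_rfl)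
    simp [this]

/-- the restriction of `p` to the first `k` elements -/
def res (x : ℕ → L) (p : L → Bool) (k : ℕ) : List Bool := (List.range k).map fun i => p (x i)

omit [DistribLattice L] in
theorem res_succ (x : ℕ → L) (p : L → Bool) (k : ℕ) :
    res x p (k + 1) = res x p k ++ [p (x k)] := by
  simp [res, List.range_succ]

open Classical in
/-- the node number `n` of level `k` -/
noncomputable def node (x : ℕ → L) (n : ℕ) : ℕ → List Bool
  | 0 => []
  | k + 1 => if ∃ p : L → Bool, IsHom p ∧ node x n k ++ [n.testBit k] = res x p (k + 1) then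
      node x n k ++ [n.testBit k] else node x n k ++ [!n.testBit k]

theorem node_real (x : ℕ → L) (n k : ℕ) : ∃ p : L → Bool, IsHom p ∧ node x n k = res x p k := by
  classical
  induction k with
  | zero => exact ⟨fun _ => false, fun a b => ⟨rfl, rfl⟩, rfl⟩
  | succ k ih =>
    obtain ⟨p, hp, hk⟩ := ih
    unfold node
    split_ifs with h
    · exact h
    · refine ⟨p, hp, ?_⟩
      rw [res_succ, ← hk]
      congr 2
      by_contra hne
      apply h
      refine ⟨p, hp, ?_⟩
      rw [res_succ, ← hk]
      congr 2
      cases hb : n.testBit k <;> cases hc : p (x k) <;> simp_all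

theorem node_length (x : ℕ → L) (n k : ℕ) : (node x n k).length = k := by
  obtain ⟨p, -, h⟩ := node_real x n k
  rw [h]
  simp [res]

theorem node_prefix (x : ℕ → L) (n : ℕ) {j k : ℕ} (h : j ≤ k) : node x n j <+: node x n k := by
  classical
  induction k, h using Nat.le_induction with
  | base => exact List.prefix_refl _
  | succ k _ ih =>
    refine ih.trans ?_
    conv_rhs => unfold node
    split_ifs
    · exact List.prefix_append _ _
    · exact List.prefix_append _ _

theorem node_mod (x : ℕ → L) (n k : ℕ) : ∀ j ≤ k, node x n j = node x (n % 2 ^ k) j := by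
  classical
  intro j
  induction j with
  | zero => intro _; rfl
  | succ j ih =>
    intro hj
    have h1 := ih (by omega)
    have h2 : (n % 2 ^ k).testBit j = n.testBit j := by
      rw [Nat.testBit_mod_two_pow]
      simp
      omega
    unfold node
    rw [← h1, h2]

/-- the set of an index -/
def setOf' (x : ℕ → L) (i : ℕ) : Set ℕ := {n | (node x n (i + 1)).getD i false = true}

theorem mem_setOf' (x : ℕ → L) {i K n : ℕ} (h : i < K) {p : L → Bool}
    (hp : node x n K = res x p K) : n ∈ setOf' x i ↔ p (x i) = true := by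
  have h1 := node_prefix x n (show i + 1 ≤ K from h)
  have h2 : (node x n (i + 1)).getD i false = (node x n K).getD i false := by
    obtain ⟨r, hr⟩ := h1
    rw [← hr, List.getD_append _ _ _ _ (by rw [node_length]; omega)]
  show (node x n (i + 1)).getD i false = true ↔ _
  rw [h2, hp]
  simp [res, List.getD, h]

theorem setOf'_comp (x : ℕ → L) (i : ℕ) : ComputablePred (fun n => n ∈ setOf' x i) := by
  classical
  rw [ComputablePred.computable_iff]
  let l : List Bool := (List.range (2 ^ (i + 1))).map fun m => (node x m (i + 1)).getD i false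
  refine ⟨fun n => l.getD (n % 2 ^ (i + 1)) false, ?_, ?_⟩
  · exact ((Primrec.list_getD false).comp (Primrec.const l)
      (Primrec.nat_mod.comp Primrec.id (Primrec.const (2 ^ (i + 1))))).to_comp
  · funext n
    have h1 : n % 2 ^ (i + 1) < 2 ^ (i + 1) := Nat.mod_lt _ (by positivity)
    have h2 : l.getD (n % 2 ^ (i + 1)) false = (node x (n % 2 ^ (i + 1)) (i + 1)).getD i false := by
      simp [l, List.getD, h1]
    rw [← node_mod x n (i + 1) (i + 1) le_rfl] at h2
    show (n ∈ setOf' x i) = (l.getD (n % 2 ^ (i + 1)) false = true)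
    rw [h2]
    rfl

theorem node_hit (x : ℕ → L) {p : L → Bool} (hp : IsHom p) (K : ℕ) :
    ∃ n, node x n K = res x p K := by
  classical
  let n := Nat.ofBits (fun i : Fin K => p (x i))
  have hn : ∀ i, i < K → n.testBit i = p (x i) := by
    intro i hi
    show (Nat.ofBits (fun i : Fin K => p (x i))).testBit i = p (x i)
    rw [Nat.testBit_ofBits_lt _ i hi]
  have key : ∀ k ≤ K, node x n k = res x p k := by
    intro k
    induction k with
    | zero => intro _; rfl
    | succ k ih =>
      intro hk
      have h1 := ih (by omega)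
      have h2 : node x n k ++ [n.testBit k] = res x p (k + 1) := by
        rw [res_succ, h1, hn k (by omega)]
      unfold node
      rw [if_pos ⟨p, hp, h2⟩, h2]
  exact ⟨n, key K le_rfl⟩

/-- Every countable distributive lattice embeds in the lattice of computable sets. -/
theorem exists_embed (L : Type) [DistribLattice L] [Countable L] :
    ∃ ψ : L → {S : Set ℕ // ComputablePred (fun n => n ∈ S)},
      (∀ a b, a ≤ b ↔ (ψ a).1 ⊆ (ψ b).1) ∧ (∀ a b, (ψ (a ⊔ b)).1 = (ψ a).1 ∪ (ψ b).1) ∧
        ∀ a b, (ψ (a ⊓ b)).1 = (ψ a).1 ∩ (ψ b).1 := by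
  classical
  rcases isEmpty_or_nonempty L with he | hne
  · exact ⟨fun a => (he.false a).elim, fun a => (he.false a).elim, fun a => (he.false a).elim,
      fun a => (he.false a).elim⟩
  obtain ⟨x, hx⟩ := exists_surjective_nat L
  choose idx hidx using hx
  have hmem : ∀ a n, ∀ K, idx a < K → ∀ p : L → Bool, node x n K = res x p K →
      (n ∈ setOf' x (idx a) ↔ p a = true) := by
    intro a n K hK p hp
    have := mem_setOf' x hK hp
    rwa [hidx] at this
  have hsup : ∀ a b, setOf' x (idx (a ⊔ b)) = setOf' x (idx a) ∪ setOf' x (idx b) := by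
    intro a b
    ext n
    set K := max (idx (a ⊔ b)) (max (idx a) (idx b)) + 1 with hK
    obtain ⟨p, hp, hpK⟩ := node_real x n K
    rw [Set.mem_union, hmem (a ⊔ b) n K (by omega) p hpK, hmem a n K (by omega) p hpK,
      hmem b n K (by omega) p hpK, (hp a b).1, Bool.or_eq_true]
  have hinf : ∀ a b, setOf' x (idx (a ⊓ b)) = setOf' x (idx a) ∩ setOf' x (idx b) := by
    intro a b
    ext n
    set K := max (idx (a ⊓ b)) (max (idx a) (idx b)) + 1 with hK
    obtain ⟨p, hp, hpK⟩ := node_real x n K
    rw [Set.mem_inter_iff, hmem (a ⊓ b) n K (by omega) p hpK, hmem a n K (by omega) p hpK,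
      hmem b n K (by omega) p hpK, (hp a b).2, Bool.and_eq_true]
  refine ⟨fun a => ⟨setOf' x (idx a), setOf'_comp x _⟩, fun a b => ⟨fun h => ?_, fun h => ?_⟩,
    hsup, hinf⟩
  · have h1 := hsup a b
    rw [sup_eq_right.2 h] at h1
    show setOf' x (idx a) ⊆ setOf' x (idx b)
    rw [h1]
    exact Set.subset_union_left
  · by_contra hab
    obtain ⟨p, hp, hpa, hpb⟩ := exists_hom hab
    obtain ⟨n, hn⟩ := node_hit x hp (max (idx a) (idx b) + 1)
    have h1 := (hmem a n _ (by omega) p hn).2 hpa
    have h2 := (hmem b n _ (by omega) p hn).1 (h h1)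
    rw [hpb] at h2
    exact absurd h2 (by decide)

end Pool.Agent.Lib.MP_d48993_lc.H84
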