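import Pool.Agent.Lib.MP_d48993_lc.H84.Seq
import Pool.Agent.Lib.MP_d48993_lc.H84.Embed

/-!
# Every countable distributive lattice embeds in every interval (helper84)
-/

set_option autoImplicit false

namespace Pool.Agent.Lib.MP_d48993_lc.H84

open MP_8c048d_lc (pre join RecF Sig Pih Del Clo Cop)
open Hide (ev od)

/-- computable sets of natural numbers -/
abbrev CS : Type := {S : Set ℕ // ComputablePred (fun n => n ∈ S)}

/-- one entry in front of a function -/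
def cons1 (k : ℕ) (X : ℕ → ℕ) : ℕ → ℕ := fun n => if n = 0 then k else X (n - 1)

/-- the function without its first entry -/
def tl1 (Y : ℕ → ℕ) : ℕ → ℕ := fun n => Y (n + 1)

theorem tl1_cons1 (k : ℕ) (X : ℕ → ℕ) : tl1 (cons1 k X) = X := by
  funext n
  simp [tl1, cons1]

theorem red_tl1 (h1 : Red1Statement) (Y : ℕ → ℕ) : Red (tl1 Y) Y :=
  h1 (fun n F => tl1 F n) (RecF.at Computable.succ) Y

theorem red_cons1 (h1 : Red1Statement) (k : ℕ) (X : ℕ → ℕ) : Red (cons1 k X) X := by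
  refine h1 (fun n F => cons1 k F n) ?_ X
  have c0 : Computable (fun n : ℕ => decide (n = 0)) :=
    (PrimrecRel.comp (Primrec.eq (α := ℕ)) Primrec.id (Primrec.const 0)).decide.to_comp
  have r := RecF.cond (c := fun (n : ℕ) (_ : ℕ → ℕ) => decide (n = 0))
    (RecF.of_computable c0)
    (φ := fun (_ : ℕ) (_ : ℕ → ℕ) => k) (RecF.of_computable (Computable.const k))
    (ψ := fun (n : ℕ) (F : ℕ → ℕ) => F (n - 1))
      (RecF.at (Primrec.nat_sub.comp Primrec.id (Primrec.const 1)).to_comp)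
  refine r.congr fun n F => ?_
  unfold cons1
  by_cases h0 : n = 0 <;> simp [h0]

/-- The union of a uniform sequence of `Π⁰₂` classes. -/
theorem exists_union2 (hred : Red1Statement) (hpi2 : Pi2Statement)
    {d : ℕ × (ℕ × ℕ) → (ℕ → ℕ) → Bool} (hd : RecF d) :
    ∃ S, ClosedC S ∧ ∀ W, W ∈ Up S ↔ ∃ k, W ∈ Up (P2 d k) := by
  have h1 : RecF (fun (p : ℕ × ℕ) F => d (F 0, p) (tl1 F)) := by
    refine hd.subst (ψ := fun (p : ℕ × ℕ) F => (F 0, p)) ?_ (Ψ := fun (_ : ℕ × ℕ) F => tl1 F) ?_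
    · exact (RecF.at (f := fun _ : ℕ × ℕ => 0) (Computable.const 0)).pair
        (RecF.of_computable Computable.id)
    · exact RecF.at (f := fun p : (ℕ × ℕ) × ℕ => p.2 + 1) (Computable.succ.comp Computable.snd)
  obtain ⟨S, hS, hSU⟩ := hpi2 _ h1
  refine ⟨S, hS, fun W => ?_⟩
  rw [hSU]
  constructor
  · rintro ⟨F, hF, hr⟩
    exact ⟨F 0, tl1 F, hF, (red_tl1 hred F).trans hr⟩
  · rintro ⟨k, G, hG, hr⟩
    refine ⟨cons1 k G, fun n => ?_, (red_cons1 hred k G).trans hr⟩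
    obtain ⟨m, hm⟩ := hG n
    refine ⟨m, ?_⟩
    show d (k, (n, m)) (tl1 (cons1 k G)) = true
    rw [tl1_cons1]
    exact hm

/-- the family for a set `S` -/
def fam (d : ℕ × (ℕ × ℕ) → (ℕ → ℕ) → Bool) (s : ℕ → Bool) (x : ℕ × (ℕ × ℕ)) (F : ℕ → ℕ) : Bool :=
  bif decide (x.1 % 2 = 0) then !(s (x.1 / 2)) && d (x.1 / 2, x.2) F
  else !(decide ((x.1 / 2).unpair.1 = (x.1 / 2).unpair.2)) &&
    (d ((x.1 / 2).unpair.1, (x.2.1, x.2.2.unpair.1)) (ev F) &&
      d ((x.1 / 2).unpair.2, (x.2.1, x.2.2.unpair.2)) (od F))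

theorem fam_recF {d : ℕ × (ℕ × ℕ) → (ℕ → ℕ) → Bool} (hd : RecF d) {s : ℕ → Bool}
    (hs : Computable s) : RecF (fam d s) := by
  have hand : Computable (fun x : Bool × Bool => x.1 && x.2) :=
    (Primrec.and.to_comp).comp Computable.fst Computable.snd
  have heq : Computable (fun x : ℕ × ℕ => decide (x.1 = x.2)) :=
    (Primrec.eq (α := ℕ)).decide.to_comp
  have cu1 : Computable (fun m : ℕ => m.unpair.1) := (Primrec.fst.comp Primrec.unpair).to_comp
  have cu2 : Computable (fun m : ℕ => m.unpair.2) := (Primrec.snd.comp Primrec.unpair).to_comp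
  have chalf : Computable (fun x : ℕ × (ℕ × ℕ) => x.1 / 2) :=
    (Primrec.nat_div.comp Primrec.fst (Primrec.const 2)).to_comp
  have cpar : Computable (fun x : ℕ × (ℕ × ℕ) => decide (x.1 % 2 = 0)) :=
    (PrimrecRel.comp (Primrec.eq (α := ℕ)) (Primrec.nat_mod.comp Primrec.fst (Primrec.const 2))
      (Primrec.const 0)).decide.to_comp
  have hnot : Computable (fun b : Bool => !b) := Primrec.not.to_comp
  have r1 : RecF (fun (x : ℕ × (ℕ × ℕ)) F => !(s (x.1 / 2)) && d (x.1 / 2, x.2) F) :=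
    RecF.comp (g := fun x : Bool × Bool => x.1 && x.2) hand
      ((RecF.of_computable (hnot.comp (hs.comp chalf))).pair
        (hd.comp₁ (f := fun x : ℕ × (ℕ × ℕ) => (x.1 / 2, x.2)) (chalf.pair Computable.snd)))
  have r2 : RecF (fun (x : ℕ × (ℕ × ℕ)) F =>
      d ((x.1 / 2).unpair.1, (x.2.1, x.2.2.unpair.1)) (ev F)) := by
    refine hd.subst (ψ := fun (x : ℕ × (ℕ × ℕ)) _ =>
      ((x.1 / 2).unpair.1, (x.2.1, x.2.2.unpair.1))) (RecF.of_computable ?_)
      (Ψ := fun (_ : ℕ × (ℕ × ℕ)) F => ev F) Hide.recF_ev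
    exact (cu1.comp chalf).pair ((Computable.fst.comp Computable.snd).pair
      (cu1.comp (Computable.snd.comp Computable.snd)))
  have r3 : RecF (fun (x : ℕ × (ℕ × ℕ)) F =>
      d ((x.1 / 2).unpair.2, (x.2.1, x.2.2.unpair.2)) (od F)) := by
    refine hd.subst (ψ := fun (x : ℕ × (ℕ × ℕ)) _ =>
      ((x.1 / 2).unpair.2, (x.2.1, x.2.2.unpair.2))) (RecF.of_computable ?_)
      (Ψ := fun (_ : ℕ × (ℕ × ℕ)) F => od F) Hide.recF_od
    exact (cu2.comp chalf).pair ((Computable.fst.comp Computable.snd).pair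
      (cu2.comp (Computable.snd.comp Computable.snd)))
  have r4 : RecF (fun (x : ℕ × (ℕ × ℕ)) (_ : ℕ → ℕ) =>
      !(decide ((x.1 / 2).unpair.1 = (x.1 / 2).unpair.2))) :=
    RecF.of_computable (hnot.comp (heq.comp ((cu1.comp chalf).pair (cu2.comp chalf))))
  have r5 := RecF.comp (g := fun x : Bool × Bool => x.1 && x.2) hand
    (r4.pair (RecF.comp (g := fun x : Bool × Bool => x.1 && x.2) hand (r2.pair r3)))
  exact RecF.cond (RecF.of_computable cpar) r1 r5

theorem fam_up (hjoin : JoinStatement) (d : ℕ × (ℕ × ℕ) → (ℕ → ℕ) → Bool) (s : ℕ → Bool)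
    (W : ℕ → ℕ) : (∃ k, W ∈ Up (P2 (fam d s) k)) ↔
      (∃ i, s i = false ∧ W ∈ Up (P2 d i)) ∨
        ∃ i j, i ≠ j ∧ W ∈ Up (P2 d i) ∧ W ∈ Up (P2 d j) := by
  constructor
  · rintro ⟨k, F, hF, hr⟩
    rcases Nat.even_or_odd' k with ⟨i, rfl | rfl⟩
    · left
      have e1 : 2 * i % 2 = 0 := by omega
      have e2 : 2 * i / 2 = i := by omega
      have h : ∀ n, ∃ m, s i = false ∧ d (i, (n, m)) F = true := by
        intro n
        obtain ⟨m, hm⟩ := hF n
        refine ⟨m, ?_⟩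
        simpa [fam, e1, e2] using hm
      refine ⟨i, ?_, F, fun n => ?_, hr⟩
      · obtain ⟨m, hm, -⟩ := h 0
        exact hm
      · obtain ⟨m, -, hm⟩ := h n
        exact ⟨m, hm⟩
    · right
      have e1 : (2 * i + 1) % 2 = 1 := by omega
      have e2 : (2 * i + 1) / 2 = i := by omega
      have h : ∀ n, ∃ m : ℕ, i.unpair.1 ≠ i.unpair.2 ∧ d (i.unpair.1, (n, m.unpair.1)) (ev F) = true ∧
          d (i.unpair.2, (n, m.unpair.2)) (od F) = true := by
        intro n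
        obtain ⟨m, hm⟩ := hF n
        refine ⟨m, ?_⟩
        simpa [fam, e1, e2] using hm
      have hr1 : Red (ev F) F := by
        have h2 := hjoin.1 (ev F) (od F)
        rwa [Hide.join_ev_od] at h2
      have hr2 : Red (od F) F := by
        have h2 := hjoin.2.1 (ev F) (od F)
        rwa [Hide.join_ev_od] at h2
      refine ⟨i.unpair.1, i.unpair.2, ?_, ⟨ev F, fun n => ?_, hr1.trans hr⟩,
        ⟨od F, fun n => ?_, hr2.trans hr⟩⟩
      · obtain ⟨m, hm, -⟩ := h 0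
        exact hm
      · obtain ⟨m, -, hm, -⟩ := h n
        exact ⟨_, hm⟩
      · obtain ⟨m, -, -, hm⟩ := h n
        exact ⟨_, hm⟩
  · rintro (⟨i, hi, F, hF, hr⟩ | ⟨i, j, hij, ⟨F, hF, hrF⟩, ⟨G, hG, hrG⟩⟩)
    · refine ⟨2 * i, F, fun n => ?_, hr⟩
      obtain ⟨m, hm⟩ := hF n
      have e1 : 2 * i % 2 = 0 := by omega
      have e2 : 2 * i / 2 = i := by omega
      refine ⟨m, ?_⟩
      simp [fam, hi, hm]
    · refine ⟨2 * Nat.pair i j + 1, join F G, fun n => ?_, hjoin.2.2 F G W hrF hrG⟩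
      obtain ⟨m, hm⟩ := hF n
      obtain ⟨m', hm'⟩ := hG n
      have e1 : (2 * Nat.pair i j + 1) % 2 = 1 := by omega
      have e2 : (2 * Nat.pair i j + 1) / 2 = Nat.pair i j := by omega
      refine ⟨Nat.pair m m', ?_⟩
      simp [fam, e1, e2, hij, hm, hm', Hide.ev_join, Hide.od_join]

/-- The upward closures of the classes. -/
theorem exists_sets (henum : EnumStatement) (hresS : ResStatement) (hjoin : JoinStatement)
    (hred : Red1Statement) (hpi2 : Pi2Statement) (A B : Set (ℕ → ℕ)) (hA : ClosedC A)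
    (hB : ClosedC B) (hBA : Up B ⊆ Up A) (hex : ∃ X ∈ A, X ∉ Up B) :
    ∃ S : CS → Set (ℕ → ℕ), (∀ s, ClosedC (S s)) ∧ (∀ s, Up (S s) ∪ Up B ⊆ Up A) ∧
      (∀ s t : CS, Up (S t) ∪ Up B ⊆ Up (S s) ∪ Up B ↔ s.1 ⊆ t.1) ∧
      (∀ s t u : CS, u.1 = s.1 ∩ t.1 → Up (S u) ∪ Up B = (Up (S s) ∪ Up B) ∪ (Up (S t) ∪ Up B)) ∧
      ∀ s t u : CS, u.1 = s.1 ∪ t.1 →
        Up (S u) ∪ Up B = (Up (S s) ∪ Up B) ∩ (Up (S t) ∪ Up B) := by
  classical
  obtain ⟨d, hd, W, hV, hW⟩ := exists_seq henum hresS hjoin hred A B hA hB hBA hex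
  have key : ∀ s : CS, ∃ S, ClosedC S ∧ ∀ X, X ∈ Up S ↔ (∃ i, i ∉ s.1 ∧ X ∈ Up (P2 d i)) ∨
      ∃ i j, i ≠ j ∧ X ∈ Up (P2 d i) ∧ X ∈ Up (P2 d j) := by
    rintro ⟨s, hs⟩
    obtain ⟨b, hb, hbs⟩ := ComputablePred.computable_iff.1 hs
    obtain ⟨S, hS, hSU⟩ := exists_union2 hred hpi2 (fam_recF hd hb)
    refine ⟨S, hS, fun X => ?_⟩
    rw [hSU, fam_up hjoin]
    have e : ∀ i, b i = false ↔ i ∉ s := by
      intro i
      have := congrFun hbs i
      simp only [eq_iff_iff] at this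
      rw [this]
      simp
    simp only [e]
  choose S hS hSU using key
  have hUp : ∀ i X, X ∈ Up (P2 d i) → X ∈ Up A := by
    rintro i X ⟨F, hF, hr⟩
    exact up_trans (hV i hF) hr
  refine ⟨S, hS, fun s => ?_, fun s t => ⟨fun h i hi => ?_, fun h => ?_⟩, fun s t u hu => ?_,
    fun s t u hu => ?_⟩
  · rintro X (hX | hX)
    · rcases (hSU s X).1 hX with ⟨i, -, h⟩ | ⟨i, -, -, h, -⟩
      · exact hUp i X h
      · exact hUp i X h
    · exact hBA hX
  · by_contra hit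
    have h1 : W i ∈ Up (S t) ∪ Up B := Or.inl ((hSU t (W i)).2 (Or.inl ⟨i, hit, (hW i).2.1⟩))
    rcases h h1 with h2 | h2
    · rcases (hSU s (W i)).1 h2 with ⟨j, hj, h3⟩ | ⟨j, k, hjk, h3, h4⟩
      · have hji : j ≠ i := fun h => hj (h ▸ hi)
        exact (hW i).2.2 j hji h3
      · by_cases hji : j = i
        · exact (hW i).2.2 k (fun h => hjk (hji.trans h.symm)) h4
        · exact (hW i).2.2 j hji h3
    · exact (hW i).1 h2
  · refine Set.union_subset_union_left _ fun X hX => ?_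
    rw [hSU] at hX ⊢
    rcases hX with ⟨i, hi, h3⟩ | h3
    · exact Or.inl ⟨i, fun h' => hi (h h'), h3⟩
    · exact Or.inr h3
  · ext X
    simp only [Set.mem_union, hSU, hu, Set.mem_inter_iff]
    constructor
    · rintro ((⟨i, hi, h⟩ | h) | h)
      · by_cases his : i ∈ s.1
        · exact Or.inr (Or.inl (Or.inl ⟨i, fun hit => hi ⟨his, hit⟩, h⟩))
        · exact Or.inl (Or.inl (Or.inl ⟨i, his, h⟩))
      · exact Or.inl (Or.inl (Or.inr h))
      · exact Or.inl (Or.inr h)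
    · rintro (((⟨i, hi, h⟩ | h) | h) | ((⟨i, hi, h⟩ | h) | h))
      · exact Or.inl (Or.inl ⟨i, fun h' => hi h'.1, h⟩)
      · exact Or.inl (Or.inr h)
      · exact Or.inr h
      · exact Or.inl (Or.inl ⟨i, fun h' => hi h'.2, h⟩)
      · exact Or.inl (Or.inr h)
      · exact Or.inr h
  · ext X
    simp only [Set.mem_union, Set.mem_inter_iff, hSU, hu]
    constructor
    · rintro ((⟨i, hi, h⟩ | h) | h)
      · exact ⟨Or.inl (Or.inl ⟨i, fun h' => hi (Or.inl h'), h⟩),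
          Or.inl (Or.inl ⟨i, fun h' => hi (Or.inr h'), h⟩)⟩
      · exact ⟨Or.inl (Or.inr h), Or.inl (Or.inr h)⟩
      · exact ⟨Or.inr h, Or.inr h⟩
    · rintro ⟨(⟨i, hi, h⟩ | h) | h, h2⟩
      · rcases h2 with (⟨j, hj, h'⟩ | h') | h'
        · by_cases hij : i = j
          · subst hij
            exact Or.inl (Or.inl ⟨i, fun h'' => h''.elim hi hj, h⟩)
          · exact Or.inl (Or.inr ⟨i, j, hij, h, h'⟩)
        · exact Or.inl (Or.inr h')
        · exact Or.inr h'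
      · exact Or.inl (Or.inr h)
      · exact Or.inr h

/-- In a preorder of classes: the embedding. -/
theorem embed_of_sets {α : Type} [Preorder α] (v : α → Set (ℕ → ℕ))
    (hv : ∀ P Q : α, P ≤ Q ↔ v Q ⊆ v P) (A B : α) (z : CS → α)
    (h1 : ∀ s, v (z s) ⊆ v A) (h1' : ∀ s, v B ⊆ v (z s))
    (h2 : ∀ s t : CS, v (z t) ⊆ v (z s) ↔ s.1 ⊆ t.1)
    (h3 : ∀ s t u : CS, u.1 = s.1 ∩ t.1 → v (z u) = v (z s) ∪ v (z t))
    (h4 : ∀ s t u : CS, u.1 = s.1 ∪ t.1 → v (z u) = v (z s) ∩ v (z t))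
    (L : Type) [DistribLattice L] [Countable L] :
    ∃ φ : L → Antisymmetrization α (· ≤ ·),
      (∀ x, toAntisymmetrization (· ≤ ·) A ≤ φ x ∧ φ x ≤ toAntisymmetrization (· ≤ ·) B) ∧
      (∀ x y, φ x ≤ φ y ↔ x ≤ y) ∧ (∀ x y, IsLUB {φ x, φ y} (φ (x ⊔ y))) ∧
      ∀ x y, IsGLB {φ x, φ y} (φ (x ⊓ y)) := by
  obtain ⟨ψ, hψ1, hψ2, hψ3⟩ := exists_embed L
  have hle : ∀ x y, toAntisymmetrization (· ≤ ·) (z (ψ x)) ≤
      toAntisymmetrization (· ≤ ·) (z (ψ y)) ↔ x ≤ y := by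
    intro x y
    rw [toAntisymmetrization_le_toAntisymmetrization_iff, hv, h2, ← hψ1]
  refine ⟨fun x => toAntisymmetrization (· ≤ ·) (z (ψ x)), fun x => ⟨?_, ?_⟩, hle,
    fun x y => ⟨?_, ?_⟩, fun x y => ⟨?_, ?_⟩⟩
  · rw [toAntisymmetrization_le_toAntisymmetrization_iff, hv]
    exact h1 _
  · rw [toAntisymmetrization_le_toAntisymmetrization_iff, hv]
    exact h1' _
  · rintro w (rfl | hw)
    · exact (hle _ _).2 le_sup_left
    · rw [Set.mem_singleton_iff] at hw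
      subst hw
      exact (hle _ _).2 le_sup_right
  · intro w hw
    induction w using Antisymmetrization.ind with
    | _ w =>
      have a1 := hw (Set.mem_insert _ _)
      have a2 := hw (Set.mem_insert_of_mem _ (Set.mem_singleton _))
      rw [toAntisymmetrization_le_toAntisymmetrization_iff, hv] at a1 a2 ⊢
      rw [h4 (ψ x) (ψ y) (ψ (x ⊔ y)) (hψ2 x y)]
      exact Set.subset_inter a1 a2
  · rintro w (rfl | hw)
    · exact (hle _ _).2 inf_le_left
    · rw [Set.mem_singleton_iff] at hw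
      subst hw
      exact (hle _ _).2 inf_le_right
  · intro w hw
    induction w using Antisymmetrization.ind with
    | _ w =>
      have a1 := hw (Set.mem_insert _ _)
      have a2 := hw (Set.mem_insert_of_mem _ (Set.mem_singleton _))
      rw [toAntisymmetrization_le_toAntisymmetrization_iff, hv] at a1 a2 ⊢
      rw [h3 (ψ x) (ψ y) (ψ (x ⊓ y)) (hψ3 x y)]
      exact Set.union_subset a1 a2

theorem muchnik_iff (P Q : Set (ℕ → ℕ)) : MuchnikLE P Q ↔ Up Q ⊆ Up P := by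
  constructor
  · rintro h W ⟨g, hg, hgW⟩
    obtain ⟨f, hf, hfg⟩ := h g hg
    exact ⟨f, hf, hfg.trans hgW⟩
  · intro h g hg
    obtain ⟨f, hf, hfg⟩ := h (show g ∈ Up Q from ⟨g, hg, Red.rfl⟩)
    exact ⟨f, hf, hfg⟩

theorem exists_not_mem {P Q : Set (ℕ → ℕ)} (h : ¬ MuchnikLE Q P) : ∃ X ∈ P, X ∉ Up Q := by
  by_contra hcon
  push Not at hcon
  apply h
  intro g hg
  obtain ⟨f, hf, hfg⟩ := hcon g hg
  exact ⟨f, hf, hfg⟩

/-- Every countable distributive lattice embeds, as a lattice, in every interval of the two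
lattices. -/
def IntervalStatement : Prop :=
  (∀ a b : PwCantor, a < b → ∀ (L : Type) [DistribLattice L] [Countable L],
    ∃ φ : L → PwCantor, (∀ x, a ≤ φ x ∧ φ x ≤ b) ∧ (∀ x y, φ x ≤ φ y ↔ x ≤ y) ∧
      (∀ x y, IsLUB {φ x, φ y} (φ (x ⊔ y))) ∧ ∀ x y, IsGLB {φ x, φ y} (φ (x ⊓ y))) ∧
  (∀ a b : PwBaire, a < b → ∀ (L : Type) [DistribLattice L] [Countable L],
    ∃ φ : L → PwBaire, (∀ x, a ≤ φ x ∧ φ x ≤ b) ∧ (∀ x y, φ x ≤ φ y ↔ x ≤ y) ∧
      (∀ x y, IsLUB {φ x, φ y} (φ (x ⊔ y))) ∧ ∀ x y, IsGLB {φ x, φ y} (φ (x ⊓ y)))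

theorem interval_of_statements (henum : EnumStatement) (hresS : ResStatement)
    (hjoin : JoinStatement) (hred : Red1Statement) (hpi2 : Pi2Statement) (hcls : ClsStatement)
    (hops : OpsStatement) (hemb : EmbStatement) : IntervalStatement := by
  constructor
  · intro a b hab L _ _
    induction a using Antisymmetrization.ind with
    | _ A =>
    induction b using Antisymmetrization.ind with
    | _ B =>
    rw [toAntisymmetrization_lt_toAntisymmetrization_iff, lt_iff_le_not_ge] at hab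
    obtain ⟨hab1, hab2⟩ := hab
    obtain ⟨-, hAc, -⟩ := (hcls.2 A.1).1 A.2
    obtain ⟨hBn, hBc, hBb⟩ := (hcls.2 B.1).1 B.2
    obtain ⟨S, hS, hS1, hS2, hS3, hS4⟩ := exists_sets henum hresS hjoin hred hpi2 A.1 B.1 hAc hBc
      ((muchnik_iff _ _).1 hab1) (exists_not_mem hab2)
    have key : ∀ s : CS, ∃ Q : CantorPi, Up Q.1 = Up (S s) ∪ Up B.1 := by
      intro s
      obtain ⟨Q, hQ1, hQ2, hQ3, hQ4⟩ := hemb (S s) B.1 (hS s) hBn hBc hBb
      exact ⟨⟨Q, (hcls.2 Q).2 ⟨hQ1, hQ2, hQ3⟩⟩, hQ4⟩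
    choose z hz using key
    refine embed_of_sets (fun P : CantorPi => Up P.1) (fun P Q => muchnik_iff P.1 Q.1) A B z
      (fun s => ?_) (fun s => ?_) (fun s t => ?_) (fun s t u hu => ?_) (fun s t u hu => ?_) L
    · simp only [hz]; exact hS1 s
    · simp only [hz]; exact Set.subset_union_right
    · simp only [hz]; exact hS2 s t
    · simp only [hz]; exact hS3 s t u hu
    · simp only [hz]; exact hS4 s t u hu
  · intro a b hab L _ _
    induction a using Antisymmetrization.ind with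
    | _ A =>
    induction b using Antisymmetrization.ind with
    | _ B =>
    rw [toAntisymmetrization_lt_toAntisymmetrization_iff, lt_iff_le_not_ge] at hab
    obtain ⟨hab1, hab2⟩ := hab
    obtain ⟨-, hAc⟩ := (hcls.1 A.1).1 A.2
    obtain ⟨hBn, hBc⟩ := (hcls.1 B.1).1 B.2
    obtain ⟨S, hS, hS1, hS2, hS3, hS4⟩ := exists_sets henum hresS hjoin hred hpi2 A.1 B.1 hAc hBc
      ((muchnik_iff _ _).1 hab1) (exists_not_mem hab2)
    have key : ∀ s : CS, ∃ Q : BairePi, Up Q.1 = Up (S s) ∪ Up B.1 := by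
      intro s
      obtain ⟨⟨Q, hQ2, hQ4⟩, -⟩ := hops (S s) B.1 (hS s) hBc
      have hne : Q.Nonempty := by
        obtain ⟨g, hg⟩ := hBn
        have : g ∈ Up Q := by rw [hQ4]; exact Or.inr (up_self hg)
        obtain ⟨f, hf, -⟩ := this
        exact ⟨f, hf⟩
      exact ⟨⟨Q, (hcls.1 Q).2 ⟨hne, hQ2⟩⟩, hQ4⟩
    choose z hz using key
    refine embed_of_sets (fun P : BairePi => Up P.1) (fun P Q => muchnik_iff P.1 Q.1) A B z
      (fun s => ?_) (fun s => ?_) (fun s t => ?_) (fun s t u hu => ?_) (fun s t u hu => ?_) L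
    · simp only [hz]; exact hS1 s
    · simp only [hz]; exact Set.subset_union_right
    · simp only [hz]; exact hS2 s t
    · simp only [hz]; exact hS3 s t u hu
    · simp only [hz]; exact hS4 s t u hu

end Pool.Agent.Lib.MP_d48993_lc.H84
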