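import Pool.Agent.Lib.MP_d48993_lc.Interfaces

/-!
# Intervals of the Muchnik lattices: rank comparison of trees, without ordinals (helper84)
-/

set_option autoImplicit false

namespace Pool.Agent.Lib.MP_d48993_lc.H84

open MP_8c048d_lc (pre)

theorem pr_zero (f : ℕ → ℕ) : pre f 0 = [] := rfl

theorem pr_length (f : ℕ → ℕ) (n : ℕ) : (pre f n).length = n := by simp [pre]

theorem pr_succ (f : ℕ → ℕ) (n : ℕ) : pre f (n + 1) = pre f n ++ [f n] := by
  simp [pre, List.range_succ]

theorem pr_prefix (f : ℕ → ℕ) {m n : ℕ} (h : m ≤ n) : pre f m <+: pre f n := by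
  obtain ⟨k, rfl⟩ := Nat.exists_eq_add_of_le h
  induction k with
  | zero => exact List.prefix_refl _
  | succ k ih =>
    rw [← Nat.add_assoc, pr_succ]
    exact (ih (by omega)).trans (List.prefix_append _ _)

/-- `R` is closed under initial segments -/
def IsTree (R : List ℕ → Prop) : Prop := ∀ s t, s <+: t → R t → R s

/-- `R` has an infinite path -/
def HasP (R : List ℕ → Prop) : Prop := ∃ f : ℕ → ℕ, ∀ n, R (pre f n)

/-- a length preserving monotone map from `R` to `R'` -/
def Le (R R' : List ℕ → Prop) : Prop :=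
  ∃ h : List ℕ → List ℕ, ∀ s, R s → R' (h s) ∧ (h s).length = s.length ∧
    ∀ t, t <+: s → h t <+: h s

/-- a monotone map from `R` to `R'` which increases the length by one -/
def Lt (R R' : List ℕ → Prop) : Prop :=
  ∃ h : List ℕ → List ℕ, ∀ s, R s → R' (h s) ∧ (h s).length = s.length + 1 ∧
    ∀ t, t <+: s → h t <+: h s

theorem Le.trans {R R' R'' : List ℕ → Prop} (h1 : Le R R') (h2 : Le R' R'') :
    Le R R'' := by
  obtain ⟨f, hf⟩ := h1
  obtain ⟨g, hg⟩ := h2
  refine ⟨fun s => g (f s), fun s hs => ?_⟩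
  obtain ⟨a1, a2, a3⟩ := hf s hs
  obtain ⟨b1, b2, b3⟩ := hg _ a1
  exact ⟨b1, by rw [b2, a2], fun t ht => b3 _ (a3 t ht)⟩

theorem Lt.trans_le {R R' R'' : List ℕ → Prop} (h1 : Lt R R') (h2 : Le R' R'') :
    Lt R R'' := by
  obtain ⟨f, hf⟩ := h1
  obtain ⟨g, hg⟩ := h2
  refine ⟨fun s => g (f s), fun s hs => ?_⟩
  obtain ⟨a1, a2, a3⟩ := hf s hs
  obtain ⟨b1, b2, b3⟩ := hg _ a1
  exact ⟨b1, by rw [b2, a2], fun t ht => b3 _ (a3 t ht)⟩

theorem Le.trans_lt {R R' R'' : List ℕ → Prop} (h1 : Le R R') (h2 : Lt R' R'') :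
    Lt R R'' := by
  obtain ⟨f, hf⟩ := h1
  obtain ⟨g, hg⟩ := h2
  refine ⟨fun s => g (f s), fun s hs => ?_⟩
  obtain ⟨a1, a2, a3⟩ := hf s hs
  obtain ⟨b1, b2, b3⟩ := hg _ a1
  exact ⟨b1, by rw [b2, a2], fun t ht => b3 _ (a3 t ht)⟩

/-- two prefixes of a list are comparable -/
theorem prefix_of_len {s t u : List ℕ} (h1 : s <+: u) (h2 : t <+: u) (h : s.length ≤ t.length) :
    s <+: t := List.prefix_of_prefix_length_le h1 h2 h

theorem hasP_of_chain {R : List ℕ → Prop} (g : ℕ → List ℕ) (hR : ∀ n, R (g n))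
    (hl : ∀ n, (g n).length = n) (hm : ∀ n, g n <+: g (n + 1)) : HasP R := by
  refine ⟨fun n => (g (n + 1)).getD n 0, fun n => ?_⟩
  have : pre (fun n => (g (n + 1)).getD n 0) n = g n := by
    induction n with
    | zero =>
      rw [pr_zero]
      exact (List.eq_nil_of_length_eq_zero (hl 0)).symm
    | succ n ih =>
      rw [pr_succ, ih]
      obtain ⟨u, hu⟩ := hm n
      have h1 : u.length = 1 := by
        have := congrArg List.length hu
        rw [List.length_append, hl, hl] at this
        omega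
      obtain ⟨a, rfl⟩ := List.length_eq_one_iff.1 h1
      rw [← hu]
      congr 1
      simp [List.getD, hl]
  rw [this]
  exact hR n

theorem Le.hasP {R R' : List ℕ → Prop} (h : Le R R') (hp : HasP R) : HasP R' := by
  obtain ⟨h, hh⟩ := h
  obtain ⟨f, hf⟩ := hp
  refine hasP_of_chain (fun n => h (pre f n)) (fun n => (hh _ (hf n)).1) (fun n => ?_)
    (fun n => (hh _ (hf (n + 1))).2.2 _ (pr_prefix f (Nat.le_succ n)))
  rw [(hh _ (hf n)).2.1, pr_length]

theorem Lt.hasP {R R' : List ℕ → Prop} (hR' : IsTree R') (h : Lt R R') (hp : HasP R) :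
    HasP R' := by
  obtain ⟨h, hh⟩ := h
  obtain ⟨f, hf⟩ := hp
  refine hasP_of_chain (fun n => (h (pre f n)).take n)
    (fun n => hR' _ _ (List.take_prefix _ _) (hh _ (hf n)).1) (fun n => ?_) (fun n => ?_)
  · rw [List.length_take, (hh _ (hf n)).2.1, pr_length]
    omega
  · have h1 := (hh _ (hf (n + 1))).2.2 _ (pr_prefix f (Nat.le_succ n))
    refine prefix_of_len ((List.take_prefix _ _).trans h1) (List.take_prefix _ _) ?_
    rw [List.length_take, List.length_take, (hh _ (hf n)).2.1, (hh _ (hf (n + 1))).2.1,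
      pr_length, pr_length]
    omega

/-- a tree without path admits no strict self map -/
theorem not_lt_self {R : List ℕ → Prop} (h0 : R []) (hn : ¬ HasP R) :
    ¬ Lt R R := by
  rintro ⟨h, hh⟩
  apply hn
  have key : ∀ n, R (h^[n] []) ∧ (h^[n] []).length = n ∧ h^[n] [] <+: h^[n + 1] [] := by
    intro n
    induction n with
    | zero => exact ⟨h0, rfl, List.nil_prefix⟩
    | succ n ih =>
      obtain ⟨a1, a2, a3⟩ := ih
      obtain ⟨b1, b2, b3⟩ := hh _ a1
      have e1 : h^[n + 1] [] = h (h^[n] []) := Function.iterate_succ_apply' h n []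
      have e2 : h^[n + 1 + 1] [] = h (h^[n + 1] []) := Function.iterate_succ_apply' h (n + 1) []
      refine ⟨by rw [e1]; exact b1, by rw [e1, b2, a2], ?_⟩
      rw [e2]
      have hR1 : R (h^[n + 1] []) := by rw [e1]; exact b1
      have := (hh _ hR1).2.2 _ a3
      rw [← e1] at this
      exact this
  exact hasP_of_chain (fun n => h^[n] []) (fun n => (key n).1) (fun n => (key n).2.1)
    (fun n => (key n).2.2)

/-- the subtree above `[k]` -/
def sub (R : List ℕ → Prop) (k : ℕ) : List ℕ → Prop := fun u => R (k :: u)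

theorem sub_isTree {R : List ℕ → Prop} (hR : IsTree R) (k : ℕ) : IsTree (sub R k) := by
  intro s t hst ht
  exact hR (k :: s) (k :: t) ((List.prefix_cons_inj k).2 hst) ht

/-- assembling maps -/
theorem le_of_sub {R R' : List ℕ → Prop} (h0 : R' [])
    (h : ∀ k, R [k] → ∃ k', Le (sub R k) (sub R' k')) (hR : IsTree R) : Le R R' := by
  classical
  choose! c hc using h
  choose! g hg using hc
  refine ⟨fun s => match s with
    | [] => []
    | k :: u => c k :: g k u, fun s hs => ?_⟩
  cases s with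
  | nil =>
    refine ⟨h0, rfl, fun t ht => ?_⟩
    rw [List.prefix_nil] at ht
    subst ht
    exact List.prefix_refl _
  | cons k u =>
    have hk : R [k] := hR [k] (k :: u) (by simp) hs
    obtain ⟨a1, a2, a3⟩ := hg k hk u hs
    refine ⟨a1, by simp [a2], fun t ht => ?_⟩
    cases t with
    | nil => exact List.nil_prefix
    | cons k' t =>
      obtain ⟨rfl, ht'⟩ := List.cons_prefix_cons.1 ht
      exact (List.prefix_cons_inj _).2 (a3 t ht')

theorem lt_of_le_sub {R R' : List ℕ → Prop} {k : ℕ} (h : Le R (sub R' k)) : Lt R R' := by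
  obtain ⟨g, hg⟩ := h
  refine ⟨fun s => k :: g s, fun s hs => ?_⟩
  obtain ⟨a1, a2, a3⟩ := hg s hs
  exact ⟨a1, by simp [a2], fun t ht => (List.prefix_cons_inj k).2 (a3 t ht)⟩

/-- from a strict map out of a nonempty tree, a non strict map to a subtree -/
theorem le_sub_of_lt {R R' : List ℕ → Prop} (hR : IsTree R) (h0 : R []) (h : Lt R R') :
    ∃ k, Le R (sub R' k) := by
  obtain ⟨g, hg⟩ := h
  obtain ⟨-, a2, -⟩ := hg [] h0
  obtain ⟨k, hk⟩ := List.length_eq_one_iff.1 a2
  have key : ∀ s, R s → g s = k :: (g s).tail := by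
    intro s hs
    have h1 := (hg s hs).2.2 [] List.nil_prefix
    rw [hk] at h1
    obtain ⟨u, hu⟩ := h1
    rw [← hu]; rfl
  refine ⟨k, fun s => (g s).tail, fun s hs => ?_⟩
  obtain ⟨b1, b2, b3⟩ := hg s hs
  refine ⟨?_, by rw [List.length_tail, b2]; rfl, fun t ht => ?_⟩
  · show R' (k :: (g s).tail)
    rw [← key s hs]; exact b1
  · have h2 := b3 t ht
    rw [key s hs, key t (hR t s ht hs)] at h2
    exact (List.prefix_cons_inj k).1 h2

/-- comparability -/
theorem le_or_lt {R : List ℕ → Prop} (hR : IsTree R) (hn : ¬ HasP R) (R' : List ℕ → Prop)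
    (hR' : IsTree R') : Le R R' ∨ Lt R' R := by
  classical
  by_contra hcon
  -- the bad property
  let Bad : (List ℕ → Prop) → Prop := fun S =>
    IsTree S ∧ ∃ S' : List ℕ → Prop, IsTree S' ∧ ¬ (Le S S' ∨ Lt S' S)
  have step : ∀ S, Bad S → S [] ∧ ∃ k, S [k] ∧ Bad (sub S k) := by
    rintro S ⟨hS, S', hS', hb⟩
    have h1 : S [] := by
      by_contra h1
      apply hb
      left
      refine ⟨id, fun s hs => absurd (hS [] s List.nil_prefix hs) h1⟩
    refine ⟨h1, ?_⟩
    by_contra hno
    push Not at hno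
    apply hb
    by_cases h2 : S' []
    · by_cases h3 : ∀ k, S [k] → ∃ k', S' [k'] ∧ Le (sub S k) (sub S' k')
      · left
        exact le_of_sub h2 (fun k hk => by
          obtain ⟨k', -, hk'⟩ := h3 k hk
          exact ⟨k', hk'⟩) hS
      · right
        push Not at h3
        obtain ⟨k, hk, hk'⟩ := h3
        have hnb := hno k hk
        have h4 : ∀ k', S' [k'] → Lt (sub S' k') (sub S k) := by
          intro k' hk''
          by_contra h5
          apply hnb
          refine ⟨sub_isTree hS k, sub S' k', sub_isTree hS' k', ?_⟩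
          rintro (h6 | h6)
          · exact hk' k' hk'' h6
          · exact h5 h6
        have h5 : Le S' (sub S k) := by
          apply le_of_sub _ _ hS'
          · exact hk
          · intro k' hk''
            exact le_sub_of_lt (sub_isTree hS' k') hk'' (h4 k' hk'')
        exact lt_of_le_sub h5
    · right
      exact ⟨id, fun s hs => absurd (hS' [] s List.nil_prefix hs) h2⟩
  -- build a path
  have hB : Bad R := ⟨hR, R', hR', hcon⟩
  let St := {s : List ℕ // Bad (fun u => R (s ++ u))}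
  have nxt : ∀ s : St, ∃ t : St, ∃ k, t.1 = s.1 ++ [k] := by
    rintro ⟨s, hs⟩
    obtain ⟨-, k, -, hk⟩ := step _ hs
    refine ⟨⟨s ++ [k], ?_⟩, k, rfl⟩
    have : (fun u => R (s ++ [k] ++ u)) = sub (fun u => R (s ++ u)) k := by
      funext u
      simp [sub]
    rw [this]
    exact hk
  choose nx kk hnx using nxt
  let s0 : St := ⟨[], by simpa using hB⟩
  let seq : ℕ → St := fun n => nx^[n] s0
  have hseq : ∀ n, (seq (n + 1)).1 = (seq n).1 ++ [kk (seq n)] := by
    intro n
    have : seq (n + 1) = nx (seq n) := Function.iterate_succ_apply' nx n s0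
    rw [this]
    exact hnx _
  apply hn
  refine hasP_of_chain (fun n => (seq n).1) (fun n => ?_) (fun n => ?_) (fun n => ?_)
  · have := (step _ (seq n).2).1
    simpa using this
  · induction n with
    | zero => rfl
    | succ n ih => rw [hseq, List.length_append, ih]; rfl
  · rw [hseq]
    exact List.prefix_append _ _

theorem lt_of_hasP {R R' : List ℕ → Prop} (h : HasP R') : Lt R R' := by
  obtain ⟨f, hf⟩ := h
  refine ⟨fun s => pre f (s.length + 1), fun s _ => ⟨hf _, pr_length _ _, fun t ht => ?_⟩⟩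
  apply pr_prefix
  have := ht.length_le
  omega

theorem le_of_lt {R R' : List ℕ → Prop} (hR' : IsTree R') (h : Lt R R') : Le R R' := by
  obtain ⟨g, hg⟩ := h
  refine ⟨fun s => (g s).take s.length, fun s hs => ?_⟩
  obtain ⟨a1, a2, a3⟩ := hg s hs
  refine ⟨hR' _ _ (List.take_prefix _ _) a1, by rw [List.length_take, a2]; omega, fun t ht => ?_⟩
  refine prefix_of_len ((List.take_prefix _ _).trans (a3 t ht)) (List.take_prefix _ _) ?_
  rw [List.length_take, List.length_take, a2]
  have := ht.length_le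
  have := (a3 t ht).length_le
  omega

/-- `i` is the first index of a tree of least rank -/
def First (R : ℕ → List ℕ → Prop) (i : ℕ) : Prop :=
  (∀ j, i < j → Le (R i) (R j)) ∧ ∀ j, j < i → Lt (R i) (R j)

/-- no infinite descending sequence -/
theorem no_desc (R : ℕ → List ℕ → Prop) (h0 : ∀ i, R i [])
    (hd : ∀ i, Lt (R (i + 1)) (R i)) : HasP (R 0) := by
  choose g hg using hd
  -- `c n` maps `R n` to `R 0`
  let c : ℕ → List ℕ → List ℕ := fun n => Nat.rec (motive := fun _ => List ℕ → List ℕ) id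
    (fun k r s => r (g k s)) n
  have hc : ∀ n s, c (n + 1) s = c n (g n s) := fun _ _ => rfl
  have key : ∀ n s, R n s → R 0 (c n s) ∧ (c n s).length = s.length + n ∧
      ∀ t, t <+: s → R n t → c n t <+: c n s := by
    intro n
    induction n with
    | zero => exact fun s hs => ⟨hs, rfl, fun t ht _ => ht⟩
    | succ n ih =>
      intro s hs
      obtain ⟨a1, a2, a3⟩ := hg n s hs
      obtain ⟨b1, b2, b3⟩ := ih _ a1
      rw [hc]
      refine ⟨b1, by rw [b2, a2]; omega, fun t ht htR => ?_⟩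
      rw [hc]
      exact b3 _ (a3 t ht) (hg n t htR).1
  refine hasP_of_chain (fun n => c n []) (fun n => (key n [] (h0 n)).1) (fun n => ?_)
    (fun n => ?_)
  · rw [(key n [] (h0 n)).2.1]; simp
  · rw [hc]
    exact (key n (g n []) (hg n [] (h0 (n + 1))).1).2.2 [] List.nil_prefix (h0 n)

theorem exists_first (R : ℕ → List ℕ → Prop) (hR : ∀ i, IsTree (R i))
    (h0 : ∀ i, R i []) (hex : ∃ i, ¬ HasP (R i)) :
    ∃ i, ¬ HasP (R i) ∧ First R i ∧ ∀ i', i' ≠ i → ¬ First R i' := by
  classical
  -- indices of least rank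
  let Good : ℕ → Prop := fun i => ¬ HasP (R i) ∧ ∀ j, Le (R i) (R j)
  have hgood : ∃ i, Good i := by
    by_contra hno
    push Not at hno
    -- then there is an infinite descending sequence
    have hstep : ∀ i, ¬ HasP (R i) → ∃ j, ¬ HasP (R j) ∧ Lt (R j) (R i) := by
      intro i hi
      have : ¬ Good i := hno i
      simp only [Good, not_and, not_forall] at this
      obtain ⟨j, hj⟩ := this hi
      rcases le_or_lt (hR i) hi (R j) (hR j) with h | h
      · exact absurd h hj
      · exact ⟨j, fun hp => hi (h.hasP (hR i) hp), h⟩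
    let W := {i : ℕ // ¬ HasP (R i)}
    have hstep' : ∀ i : W, ∃ j : W, Lt (R j.1) (R i.1) := by
      rintro ⟨i, hi⟩
      obtain ⟨j, hj, hj'⟩ := hstep i hi
      exact ⟨⟨j, hj⟩, hj'⟩
    choose nx hnx using hstep'
    obtain ⟨i0, hi0⟩ := hex
    let sq : ℕ → W := fun n => nx^[n] ⟨i0, hi0⟩
    have hsq : ∀ n, sq (n + 1) = nx (sq n) := fun n => Function.iterate_succ_apply' nx n _
    have := no_desc (fun n => R (sq n).1) (fun n => h0 _) (fun n => by
      show Lt (R (sq (n + 1)).1) (R (sq n).1)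
      rw [hsq]
      exact hnx _)
    exact (sq 0).2 this
  -- the least good index
  obtain ⟨i, hi, hmin⟩ : ∃ i, Good i ∧ ∀ j, j < i → ¬ Good j :=
    ⟨Nat.find hgood, Nat.find_spec hgood, fun j hj => Nat.find_min hgood hj⟩
  refine ⟨i, hi.1, ⟨fun j _ => hi.2 j, fun j hj => ?_⟩, fun i' hne hF => ?_⟩
  · by_cases hp : HasP (R j)
    · exact lt_of_hasP hp
    · rcases le_or_lt (hR j) hp (R i) (hR i) with h | h
      · exact absurd ⟨hp, fun k => h.trans (hi.2 k)⟩ (hmin j hj)
      · exact h
  · rcases lt_or_gt_of_ne hne with h | h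
    · have h1 := hF.1 i h
      exact hmin i' h ⟨fun hp => hi.1 (h1.hasP hp), fun k => h1.trans (hi.2 k)⟩
    · have h1 := hF.2 i h
      exact not_lt_self (h0 i) hi.1 ((hi.2 i').trans_lt h1)

end Pool.Agent.Lib.MP_d48993_lc.H84
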