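import Pool.Agent.Lib.MP_d48993_lc.Hide

/-!
# The hiding lemma, in the form with an explicit `Π⁰₂` matrix (helper84)

The proof is the one of module HIDE.
-/

set_option autoImplicit false

namespace Pool.Agent.Lib.MP_d48993_lc.H84

open MP_8c048d_lc (pre join RecF Sig Clo Cop join_even join_odd join_eta pre_succ length_pre
  pre_congr pre_getElem?)

open Hide in
/-- The hiding lemma: `Θ` is hidden with respect to `U`. -/
theorem hide2 (henum : EnumStatement) (hresS : ResStatement) (hjoin : JoinStatement) :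
    ∀ (U : Set (ℕ → ℕ)) (Θ : (ℕ → ℕ) → Prop), ClosedC U → Sig (fun (_ : Unit) Y => Θ Y) →
      ∃ D : ℕ × ℕ → (ℕ → ℕ) → Bool, RecF D ∧
        (∀ Y, Θ Y → Y ∉ Up U → ∃ Z, (∀ n, ∃ m, D (n, m) (join Y Z) = true) ∧
          join Y Z ∉ Up U) ∧
        ∀ F, (∀ n, ∃ m, D (n, m) F = true) → F ∉ Up U → Θ (ev F) := by
  classical
  intro U Θ hU hΘ
  obtain ⟨Φ, hΦ⟩ := henum
  obtain ⟨res, hres, hext, hlim⟩ := hresS Φ U hΦ hU
  obtain ⟨d, hd, hdΘ⟩ := hΘ
  obtain ⟨q, hq, hq1, hq2⟩ := hd.mono
  obtain ⟨dd, hdd, hdd1⟩ := cop_dd hq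
  have hdd2 : ∀ τ F, DD q (ev F) τ ↔ dd τ F = true := hdd1
  -- the `Π⁰₂` class
  let D₂ : ℕ × ℕ → (ℕ → ℕ) → Bool := fun p F =>
    decide (p.1.unpair.2 ≤ p.2) && (parse res dd (p.2, p.1.unpair.1) F).2.2
  have hD₂ : RecF D₂ := by
    have cu1 : Computable (fun m : ℕ => m.unpair.1) := (Primrec.fst.comp Primrec.unpair).to_comp
    have cu2 : Computable (fun m : ℕ => m.unpair.2) := (Primrec.snd.comp Primrec.unpair).to_comp
    have e1 : RecF (fun (p : ℕ × ℕ) (_ : ℕ → ℕ) => decide (p.1.unpair.2 ≤ p.2)) := by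
      refine RecF.of_computable (f := fun p : ℕ × ℕ => decide (p.1.unpair.2 ≤ p.2)) ?_
      have h : Computable (fun x : ℕ × ℕ => decide (x.1 ≤ x.2)) := Primrec.nat_le.decide.to_comp
      have h' := h.comp (Computable.pair (cu2.comp Computable.fst) Computable.snd)
      exact h'
    have e2 : RecF (fun (p : ℕ × ℕ) F => (parse res dd (p.2, p.1.unpair.1) F).2.2) :=
      RecF.comp (Computable.snd.comp Computable.snd) ((recF_parse hres hdd).comp₁
        (f := fun p : ℕ × ℕ => (p.2, p.1.unpair.1))
        (Computable.pair Computable.snd (cu1.comp Computable.fst)))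
    exact RecF.comp (g := fun x : Bool × Bool => x.1 && x.2)
      ((Primrec.and.to_comp).comp Computable.fst Computable.snd) (e1.pair e2)
  have hmem : ∀ F : ℕ → ℕ, (∀ n, ∃ m, D₂ (n, m) F = true) ↔
      ∀ n m, ∃ t ≥ m, (parse res dd (t, n) F).2.2 = true := by
    intro F
    constructor
    · intro h n m
      obtain ⟨t, ht⟩ := h (Nat.pair n m)
      have h1 : (decide ((Nat.pair n m).unpair.2 ≤ t) &&
        (parse res dd (t, (Nat.pair n m).unpair.1) F).2.2) = true := ht
      rw [Nat.unpair_pair, Bool.and_eq_true, decide_eq_true_eq] at h1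
      exact ⟨t, h1.1, h1.2⟩
    · intro h n
      obtain ⟨t, ht1, ht2⟩ := h n.unpair.1 n.unpair.2
      refine ⟨t, ?_⟩
      show (decide (n.unpair.2 ≤ t) && (parse res dd (t, n.unpair.1) F).2.2) = true
      rw [ht2, Bool.and_true, decide_eq_true_eq]
      exact ht1
  refine ⟨D₂, hD₂, ?_, ?_⟩
  · -- a member outside
    intro Y₀ hY₀ hY₀U
    obtain ⟨f, hf⟩ := (hdΘ () Y₀).1 hY₀
    have hDD := (dd_spec hq1 hq2 Y₀ f).1 hf
    obtain ⟨r, hr1, hr2⟩ := hlim Y₀ hY₀U
    let S : ℕ → List ℕ := fun n => Nat.rec (motive := fun _ => List ℕ) [] (fun k s => r k s ++ [f k]) n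
    have hS : ∀ n, S (n + 1) = r n (S n) ++ [f n] := fun n => rfl
    have hre : ∀ n σ, σ <+: r n σ := by
      intro n σ
      obtain ⟨t, ht⟩ := hr1 n σ
      rw [← ht t le_rfl]
      exact hext t n σ Y₀
    have hS1 : ∀ n, S n <+: S (n + 1) := by
      intro n
      rw [hS]
      exact (hre n (S n)).trans (List.prefix_append _ _)
    have hS2 : ∀ n, n ≤ (S n).length := by
      intro n
      induction n with
      | zero => exact Nat.zero_le _
      | succ n ih =>
        rw [hS, List.length_append, List.length_singleton]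
        have := (hre n (S n)).length_le
        omega
    obtain ⟨Z, hZ⟩ := exists_union hS1 hS2
    have hZr : ∀ n, r n (S n) = pre Z (r n (S n)).length ∧ Z (r n (S n)).length = f n := by
      intro n
      have h1 := hZ (n + 1)
      rw [hS, List.length_append, List.length_singleton, pre_succ] at h1
      have h2 := List.append_inj' h1 rfl
      exact ⟨h2.1.symm, by simpa using h2.2⟩
    have hF : ∀ n, ∃ m, D₂ (n, m) (join Y₀ Z) = true := by
      refine (hmem (join Y₀ Z)).2 fun n m => ?_
      have key : ∀ n, ∃ t₀, ∀ t ≥ t₀,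
          parse res dd (t, n) (join Y₀ Z) = (S n, pre f n, true) := by
        intro n
        induction n with
        | zero =>
          refine ⟨0, fun t _ => ?_⟩
          rw [parse_zero]
          have h1 : dd [] (join Y₀ Z) = true := by
            rw [← hdd2, ev_join]
            exact hDD 0
          rw [h1]
          rfl
        | succ n ih =>
          obtain ⟨t₀, h0⟩ := ih
          obtain ⟨t₁, h1⟩ := hr1 n (S n)
          refine ⟨max t₀ t₁, fun t ht => ?_⟩
          rw [parse_succ, h0 t (le_trans (le_max_left _ _) ht)]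
          unfold step
          simp only [ev_join, od_join]
          rw [h1 t (le_trans (le_max_right _ _) ht), join_odd, (hZr n).2, ← (hZr n).1, ← hS,
            ← pre_succ]
          have h2 : dd (pre f (n + 1)) (join Y₀ Z) = true := by
            rw [← hdd2, ev_join]
            exact hDD (n + 1)
          rw [h2]
          simp
      obtain ⟨t₀, h0⟩ := key n
      exact ⟨max t₀ m, le_max_right _ _, by rw [h0 _ (le_max_left _ _)]⟩
    have hFU : join Y₀ Z ∉ Up U := by
      rintro ⟨g, hg, hgF⟩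
      obtain ⟨i, hi⟩ := (hΦ.spec g (join Y₀ Z)).1 hgF
      exact hr2 i (S i) Z ⟨_, (hZr i).1⟩ g hg hi
    exact ⟨Z, hF, hFU⟩
  · -- the members outside compute a member of `Θ`
    intro F hF hFU
    have hF' := (hmem F).1 hF
    have hYF : Red (ev F) F := by
      have h1 := hjoin.1 (ev F) (od F)
      rwa [join_ev_od] at h1
    have hYU : ev F ∉ Up U := by
      rintro ⟨g, hg, hgY⟩
      exact hFU ⟨g, hg, hgY.trans hYF⟩
    obtain ⟨r, hr1, -⟩ := hlim (ev F) hYU
    let L : ℕ → List ℕ × List ℕ := fun n => Nat.rec (motive := fun _ => List ℕ × List ℕ) ([], [])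
      (fun k s => (r k s.1 ++ [F (2 * (r k s.1).length + 1)],
        s.2 ++ [F (2 * (r k s.1).length + 1)])) n
    have hL : ∀ n, L (n + 1) = (r n (L n).1 ++ [F (2 * (r n (L n).1).length + 1)],
        (L n).2 ++ [F (2 * (r n (L n).1).length + 1)]) := fun n => rfl
    have key : ∀ n, ∃ t₀, ∃ b : Bool, (b = true → dd (L n).2 F = true) ∧
        ∀ t ≥ t₀, parse res dd (t, n) F = ((L n).1, (L n).2, b) := by
      intro n
      induction n with
      | zero => exact ⟨0, dd [] F, fun h => h, fun t _ => parse_zero _ _ _ _⟩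
      | succ n ih =>
        obtain ⟨t₀, b, -, h0⟩ := ih
        obtain ⟨t₁, h1⟩ := hr1 n (L n).1
        refine ⟨max t₀ t₁, (b && decide (r n (L n).1 = pre (od F) (r n (L n).1).length)) &&
          dd (L (n + 1)).2 F, fun h => ?_, fun t ht => ?_⟩
        · rw [Bool.and_eq_true] at h
          exact h.2
        · rw [parse_succ, h0 t (le_trans (le_max_left _ _) ht)]
          unfold step
          simp only
          rw [h1 t (le_trans (le_max_right _ _) ht), hL]
    have hdL : ∀ n, dd (L n).2 F = true := by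
      intro n
      obtain ⟨t₀, b, hb, h0⟩ := key n
      obtain ⟨t, ht, h1⟩ := hF' n t₀
      rw [h0 t ht] at h1
      exact hb h1
    have hLf : ∀ n, (L n).2 = pre (fun k => F (2 * (r k (L k).1).length + 1)) n := by
      intro n
      induction n with
      | zero => rfl
      | succ n ih => rw [hL, pre_succ, ← ih]
    refine (hdΘ () (ev F)).2 ⟨fun k => F (2 * (r k (L k).1).length + 1), ?_⟩
    rw [dd_spec hq1 hq2]
    intro n
    rw [← hLf, hdd2]
    exact hdL n

end Pool.Agent.Lib.MP_d48993_lc.H84
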