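import Pool.Agent.Lib.MP_d48993_lc.H84.Cmp
import Pool.Agent.Lib.MP_d48993_lc.H84.Hide2
import Pool.Agent.Lib.MP_d48993_lc.H84.RecFam
import Pool.Agent.Lib.MP_d48993_lc.Cls

/-!
# An independent sequence of `Π⁰₂` classes in every interval (helper84)
-/

set_option autoImplicit false

namespace Pool.Agent.Lib.MP_d48993_lc.H84

open MP_8c048d_lc (pre join RecF Sig Pih Del Clo Cop)
open Hide (ev od)

/-! ### The comparison classes -/

/-- the maps coded by a function -/
def hh (F : ℕ → ℕ) (j : ℕ) (s : List ℕ) : List ℕ :=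
  (Encodable.decode (α := List ℕ) (F (Encodable.encode (j, s)))).getD []

/-- `hh F j` is a monotone map from `T` to `T'` adding `c` to the lengths -/
def MapC (T T' : List ℕ → Prop) (c j : ℕ) (F : ℕ → ℕ) : Prop :=
  ∀ s, T s → T' (hh F j s) ∧ (hh F j s).length = s.length + c ∧
    ∀ k < s.length + 1, hh F j (s.take k) = (hh F j s).take (hh F j (s.take k)).length

/-- the comparison class -/
def PC2 (T : ℕ × ℕ → List ℕ → Prop) (p : ℕ × ℕ) (F : ℕ → ℕ) : Prop :=
  ∀ j, (p.2 < j → MapC (T p) (T (p.1, j)) 0 j F) ∧ (j < p.2 → MapC (T p) (T (p.1, j)) 1 j F)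

theorem hh_recF {α : Type} [Primcodable α] {f : α → ℕ × List ℕ} (hf : Computable f) :
    RecF (fun a F => hh F (f a).1 (f a).2) := by
  have h1 : RecF (fun a F => F (Encodable.encode (f a))) :=
    RecF.at (Computable.encode.comp hf)
  have h2 : Computable (fun n : ℕ => (Encodable.decode (α := List ℕ) n).getD []) :=
    Primrec.option_getD.to_comp.comp (Computable.decode) (Computable.const [])
  exact (RecF.comp h2 h1).congr fun a F => rfl

theorem mapC_clo {T : ℕ × ℕ → List ℕ → Prop}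
    (hT : ComputablePred (fun x : (ℕ × ℕ) × List ℕ => T x.1 x.2)) (c : ℕ) :
    Clo (fun (x : (ℕ × ℕ) × ℕ) F => MapC (T x.1) (T (x.1.1, x.2)) c x.2 F) := by
  have cj : Computable (fun y : ((ℕ × ℕ) × ℕ) × List ℕ => y.1.2) :=
    Computable.snd.comp Computable.fst
  have hB : RecF (fun (y : ((ℕ × ℕ) × ℕ) × List ℕ) F => hh F y.1.2 y.2) :=
    hh_recF (f := fun y : ((ℕ × ℕ) × ℕ) × List ℕ => (y.1.2, y.2)) (cj.pair Computable.snd)
  have e1 : Cop (fun (y : ((ℕ × ℕ) × ℕ) × List ℕ) (_ : ℕ → ℕ) => T y.1.1 y.2) :=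
    Cop.of_recF (φ := fun (y : ((ℕ × ℕ) × ℕ) × List ℕ) (_ : ℕ → ℕ) => (y.1.1, y.2))
      (p := fun x : (ℕ × ℕ) × List ℕ => T x.1 x.2)
      (RecF.of_computable ((Computable.fst.comp Computable.fst).pair Computable.snd)) hT
  have e2 : Cop (fun (y : ((ℕ × ℕ) × ℕ) × List ℕ) F => T (y.1.1.1, y.1.2) (hh F y.1.2 y.2)) := by
    refine Cop.of_recF (φ := fun (y : ((ℕ × ℕ) × ℕ) × List ℕ) F =>
      ((y.1.1.1, y.1.2), hh F y.1.2 y.2)) (p := fun x : (ℕ × ℕ) × List ℕ => T x.1 x.2) ?_ hT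
    exact (RecF.of_computable ((Computable.fst.comp (Computable.fst.comp Computable.fst)).pair
      cj)).pair hB
  have eqN : ComputablePred (fun x : ℕ × ℕ => x.1 = x.2) :=
    PrimrecPred.computablePred (PrimrecRel.comp Primrec.eq Primrec.fst Primrec.snd)
  have eqL : ComputablePred (fun x : List ℕ × List ℕ => x.1 = x.2) :=
    PrimrecPred.computablePred (PrimrecRel.comp Primrec.eq Primrec.fst Primrec.snd)
  have e3 : Cop (fun (y : ((ℕ × ℕ) × ℕ) × List ℕ) F =>
      (hh F y.1.2 y.2).length = y.2.length + c) := by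
    refine Cop.of_recF (φ := fun (y : ((ℕ × ℕ) × ℕ) × List ℕ) F =>
      ((hh F y.1.2 y.2).length, y.2.length + c)) (p := fun x : ℕ × ℕ => x.1 = x.2) ?_ eqN
    refine (RecF.comp Computable.list_length hB).pair (RecF.of_computable ?_)
    exact (Primrec.nat_add.comp (Primrec.list_length.comp Primrec.snd)
      (Primrec.const c)).to_comp
  have e4 : Cop (fun (z : (((ℕ × ℕ) × ℕ) × List ℕ) × ℕ) F =>
      hh F z.1.1.2 (z.1.2.take z.2) =
        (hh F z.1.1.2 z.1.2).take (hh F z.1.1.2 (z.1.2.take z.2)).length) := by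
    have c1 : Computable (fun z : (((ℕ × ℕ) × ℕ) × List ℕ) × ℕ => z.1.1.2) :=
      Computable.snd.comp (Computable.fst.comp Computable.fst)
    have c2 : Computable (fun z : (((ℕ × ℕ) × ℕ) × List ℕ) × ℕ => z.1.2.take z.2) :=
      (Primrec.list_take (α := ℕ)).to_comp.comp Computable.snd
        (Computable.snd.comp Computable.fst)
    have r1 : RecF (fun (z : (((ℕ × ℕ) × ℕ) × List ℕ) × ℕ) F => hh F z.1.1.2 (z.1.2.take z.2)) :=
      hh_recF (f := fun z : (((ℕ × ℕ) × ℕ) × List ℕ) × ℕ => (z.1.1.2, z.1.2.take z.2))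
        (c1.pair c2)
    have r2 : RecF (fun (z : (((ℕ × ℕ) × ℕ) × List ℕ) × ℕ) F => hh F z.1.1.2 z.1.2) :=
      hh_recF (f := fun z : (((ℕ × ℕ) × ℕ) × List ℕ) × ℕ => (z.1.1.2, z.1.2))
        (c1.pair (Computable.snd.comp Computable.fst))
    have c3 : Computable (fun x : List ℕ × List ℕ => (x.1, x.2.take x.1.length)) :=
      Computable.fst.pair ((Primrec.list_take (α := ℕ)).to_comp.comp
        (Computable.list_length.comp Computable.fst) Computable.snd)
    exact Cop.of_recF (φ := fun (z : (((ℕ × ℕ) × ℕ) × List ℕ) × ℕ) F =>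
      (hh F z.1.1.2 (z.1.2.take z.2),
        (hh F z.1.1.2 z.1.2).take (hh F z.1.1.2 (z.1.2.take z.2)).length))
      (p := fun x : List ℕ × List ℕ => x.1 = x.2) ((RecF.comp c3 (r1.pair r2)).congr
        fun z F => rfl) eqL
  have e5 : Cop (fun (y : ((ℕ × ℕ) × ℕ) × List ℕ) F => ∀ k < y.2.length + 1,
      hh F y.1.2 (y.2.take k) = (hh F y.1.2 y.2).take (hh F y.1.2 (y.2.take k)).length) :=
    Cop.ball (P := fun (y : ((ℕ × ℕ) × ℕ) × List ℕ) k F =>
      hh F y.1.2 (y.2.take k) = (hh F y.1.2 y.2).take (hh F y.1.2 (y.2.take k)).length) e4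
      (Computable.succ.comp (Computable.list_length.comp Computable.snd))
  exact Clo.all (P := fun (x : (ℕ × ℕ) × ℕ) (s : List ℕ) F => T x.1 s →
    T (x.1.1, x.2) (hh F x.2 s) ∧ (hh F x.2 s).length = s.length + c ∧
    ∀ k < s.length + 1, hh F x.2 (s.take k) = (hh F x.2 s).take (hh F x.2 (s.take k)).length)
    (Clo.of_cop (Cop.imp e1 (e2.and (e3.and e5))))

theorem pc2_clo {T : ℕ × ℕ → List ℕ → Prop}
    (hT : ComputablePred (fun x : (ℕ × ℕ) × List ℕ => T x.1 x.2)) : Clo (PC2 T) := by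
  have ltN : ComputablePred (fun x : ℕ × ℕ => x.1 < x.2) :=
    PrimrecPred.computablePred (PrimrecRel.comp Primrec.nat_lt Primrec.fst Primrec.snd)
  have e1 : Cop (fun (x : (ℕ × ℕ) × ℕ) (_ : ℕ → ℕ) => x.1.2 < x.2) :=
    Cop.of_recF (φ := fun (x : (ℕ × ℕ) × ℕ) (_ : ℕ → ℕ) => (x.1.2, x.2))
      (p := fun x : ℕ × ℕ => x.1 < x.2)
      (RecF.of_computable ((Computable.snd.comp Computable.fst).pair Computable.snd)) ltN
  have e2 : Cop (fun (x : (ℕ × ℕ) × ℕ) (_ : ℕ → ℕ) => x.2 < x.1.2) :=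
    Cop.of_recF (φ := fun (x : (ℕ × ℕ) × ℕ) (_ : ℕ → ℕ) => (x.2, x.1.2))
      (p := fun x : ℕ × ℕ => x.1 < x.2)
      (RecF.of_computable (Computable.snd.pair (Computable.snd.comp Computable.fst))) ltN
  exact Clo.allN (P := fun (p : ℕ × ℕ) j F =>
    (p.2 < j → MapC (T p) (T (p.1, j)) 0 j F) ∧ (j < p.2 → MapC (T p) (T (p.1, j)) 1 j F))
    ((Clo.imp e1 (mapC_clo hT 0)).and (Clo.imp e2 (mapC_clo hT 1)))

theorem take_of_prefix {t s : List ℕ} (h : t <+: s) : s.take t.length = t := by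
  obtain ⟨r, rfl⟩ := h
  simp

theorem first_iff {T : ℕ × ℕ → List ℕ → Prop} (e i : ℕ) :
    (∃ F, PC2 T (e, i) F) ↔ First (fun j => T (e, j)) i := by
  classical
  have toMap : ∀ (F : ℕ → ℕ) (c j : ℕ), MapC (T (e, i)) (T (e, j)) c j F →
      ∀ s, T (e, i) s → T (e, j) (hh F j s) ∧ (hh F j s).length = s.length + c ∧
        ∀ t, t <+: s → hh F j t <+: hh F j s := by
    intro F c j h s hs
    obtain ⟨a1, a2, a3⟩ := h s hs
    refine ⟨a1, a2, fun t ht => ?_⟩
    have h1 := a3 t.length (by have := ht.length_le; omega)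
    rw [take_of_prefix ht] at h1
    rw [h1]
    exact List.take_prefix _ _
  constructor
  · rintro ⟨F, hF⟩
    exact ⟨fun j hj => ⟨hh F j, toMap F 0 j ((hF j).1 hj)⟩,
      fun j hj => ⟨hh F j, toMap F 1 j ((hF j).2 hj)⟩⟩
  · rintro ⟨h1, h2⟩
    choose! f hf using h1
    choose! g hg using h2
    let m : ℕ → List ℕ → List ℕ := fun j s => if i < j then f j s else g j s
    let F : ℕ → ℕ := fun n => ((Encodable.decode (α := ℕ × List ℕ) n).map
      fun x => Encodable.encode (m x.1 x.2)).getD 0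
    have hF : ∀ j s, hh F j s = m j s := by
      intro j s
      simp [hh, F]
    have fromMap : ∀ (c j : ℕ), (∀ s, T (e, i) s → T (e, j) (m j s) ∧
        (m j s).length = s.length + c ∧ ∀ t, t <+: s → m j t <+: m j s) →
        MapC (T (e, i)) (T (e, j)) c j F := by
      intro c j h s hs
      obtain ⟨a1, a2, a3⟩ := h s hs
      simp only [hF]
      exact ⟨a1, a2, fun k _ => (take_of_prefix (a3 _ (List.take_prefix _ _))).symm⟩
    refine ⟨F, fun j => ⟨fun hj => fromMap 0 j fun s hs => ?_,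
      fun hj => fromMap 1 j fun s hs => ?_⟩⟩
    · have e1 : m j = f j := by funext s; simp only [m]; rw [if_pos hj]
      rw [e1]
      exact hf j hj s hs
    · have e1 : m j = g j := by funext s; simp only [m]; rw [if_neg (by simp only at hj; omega)]
      rw [e1]
      exact hg j hj s hs

/-- the tree of a `Σ¹₁` relation -/
theorem sig_tree {R : ℕ × ℕ → Prop} (h : Sig (fun (p : ℕ × ℕ) (_ : ℕ → ℕ) => R p)) :
    ∃ T : ℕ × ℕ → List ℕ → Prop, ComputablePred (fun x : (ℕ × ℕ) × List ℕ => T x.1 x.2) ∧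
      (∀ p, IsTree (T p)) ∧ (∀ p, T p []) ∧ ∀ p, HasP (T p) ↔ R p := by
  obtain ⟨Q, hQ, hQ2⟩ := MP_8c048d_lc.pih_normal (P := fun p : ℕ × ℕ => ¬ R p)
    (MP_8c048d_lc.Sig.not (P := fun (p : ℕ × ℕ) (_ : ℕ → ℕ) => R p) h)
  refine ⟨fun p σ => ∀ j < σ.length, ¬ Q (p, σ.take j), ?_, ?_, ?_, ?_⟩
  · have e1 : Cop (fun (y : ((ℕ × ℕ) × List ℕ) × ℕ) (_ : ℕ → ℕ) => Q (y.1.1, y.1.2.take y.2)) := by
      refine Cop.of_recF (φ := fun (y : ((ℕ × ℕ) × List ℕ) × ℕ) (_ : ℕ → ℕ) =>
        (y.1.1, y.1.2.take y.2)) (p := Q) (RecF.of_computable ?_) hQ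
      exact (Computable.fst.comp Computable.fst).pair ((Primrec.list_take (α := ℕ)).to_comp.comp
        Computable.snd (Computable.snd.comp Computable.fst))
    exact comp_of_cop (Cop.ball (P := fun (x : (ℕ × ℕ) × List ℕ) j (_ : ℕ → ℕ) =>
      ¬ Q (x.1, x.2.take j)) e1.not (Computable.list_length.comp Computable.snd))
  · intro p s t hst ht j hj
    have h1 := ht j (by have := hst.length_le; omega)
    obtain ⟨r, rfl⟩ := hst
    rwa [List.take_append_of_le_length hj.le] at h1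
  · intro p j hj
    exact absurd hj (Nat.not_lt_zero _)
  · intro p
    have h2 := hQ2 p
    constructor
    · rintro ⟨f, hf⟩
      by_contra hR
      obtain ⟨k, hk⟩ := h2.1 hR f
      have h3 := hf (k + 1) k (by rw [MP_8c048d_lc.length_pre]; omega)
      rw [MP_8c048d_lc.pre_take, min_eq_left (by omega)] at h3
      exact h3 hk
    · intro hR
      by_contra hcon
      apply (h2.2 ?_) hR
      intro f
      by_contra hf
      push Not at hf
      apply hcon
      refine ⟨f, fun n j hj => ?_⟩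
      rw [MP_8c048d_lc.length_pre] at hj
      rw [MP_8c048d_lc.pre_take, min_eq_left hj.le]
      exact hf j

end Pool.Agent.Lib.MP_d48993_lc.H84
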